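import Mathlib

/-!
# The average of a truncated Herglotz kernel
-/

set_option autoImplicit false

open Set Metric Filter Topology Complex

namespace Pool.Agent.Lib.MP_fcdc87_an

/-- `(Re 1/(1 - ζ) - C)⁺`. -/
noncomputable def trunc (C : ℝ) (ζ : ℂ) : ℝ := max 0 ((1 / (1 - ζ)).re - C)

theorem trunc_nonneg (C : ℝ) (ζ : ℂ) : 0 ≤ trunc C ζ := le_max_left _ _

theorem continuousOn_trunc (C : ℝ) : ContinuousOn (trunc C) (ball 0 1) := by
  have hm : Continuous fun x : ℝ => max 0 (x - C) := by fun_prop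
  refine hm.comp_continuousOn ?_
  apply continuous_re.comp_continuousOn
  apply ContinuousOn.div continuousOn_const (by fun_prop)
  intro z hz h0
  have : z = 1 := by linear_combination -h0
  rw [this] at hz
  simp at hz

/-- `1/(1-ζ)` has real part `≥ 1/(4η)` when `ζ = (1-η) e^{is}`, `|s| ≤ η`. -/
theorem re_ge {η s : ℝ} (hη : 0 < η) (hη1 : η ≤ 1) (hs : |s| ≤ η) :
    1 / (4 * η) ≤ (1 / (1 - ((1 - η : ℝ) : ℂ) * exp (I * s))).re := by
  set z : ℂ := 1 - ((1 - η : ℝ) : ℂ) * exp (I * s) with hz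
  have hre : η ≤ z.re := by
    have h1 : z.re = 1 - (1 - η) * Real.cos s := by
      rw [hz, mul_comm I]
      simp [Complex.exp_ofReal_mul_I_re]
    rw [h1]
    have := Real.cos_le_one s
    nlinarith
  have hnorm : ‖z‖ ≤ 2 * η := by
    have h1 : z = (η : ℂ) - ((1 - η : ℝ) : ℂ) * (exp (I * s) - 1) := by
      rw [hz]; push_cast; ring
    rw [h1]
    calc ‖(η : ℂ) - ((1 - η : ℝ) : ℂ) * (exp (I * s) - 1)‖
        ≤ ‖(η : ℂ)‖ + ‖((1 - η : ℝ) : ℂ) * (exp (I * s) - 1)‖ := norm_sub_le _ _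
      _ = η + (1 - η) * ‖exp (I * s) - 1‖ := by
          rw [norm_mul, Complex.norm_real, Complex.norm_real, Real.norm_of_nonneg hη.le,
            Real.norm_of_nonneg (by linarith)]
      _ ≤ η + 1 * η := by
          have h2 : ‖exp (I * s) - 1‖ ≤ η :=
            (Real.norm_exp_I_mul_ofReal_sub_one_le).trans (by rwa [Real.norm_eq_abs])
          have h3 : (1 - η) * ‖exp (I * s) - 1‖ ≤ 1 * η := by
            apply mul_le_mul (by linarith) h2 (norm_nonneg _) (by norm_num)
          linarith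
      _ = 2 * η := by ring
  have hz0 : 0 < ‖z‖ := lt_of_lt_of_le (lt_of_lt_of_le hη hre) (re_le_norm z)
  have h2 : (1 / z).re = z.re / ‖z‖ ^ 2 := by
    rw [one_div, inv_re, normSq_eq_norm_sq]
  rw [h2, div_le_div_iff₀ (by positivity) (by positivity)]
  have h3 : ‖z‖ ^ 2 ≤ (2 * η) ^ 2 := by gcongr
  nlinarith

theorem average_trunc {C η : ℝ} (hη : 0 < η) (hη1 : η < 1) (hCη : 8 * η * C ≤ 1)
    {κ : ℂ} (hκ : ‖κ‖ = 1 - η) {M : ℕ} (hM : M ≠ 0) :
    1 / (8 * Real.pi) ≤ Real.circleAverage (fun t => trunc C (κ * t ^ M)) 0 1 := by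
  have hpi := Real.pi_pos
  have hpi3 := Real.pi_gt_three
  let G : ℝ → ℝ := fun s => trunc C (((1 - η : ℝ) : ℂ) * exp (I * s))
  have hGc : Continuous G := by
    apply (continuousOn_trunc C).comp_continuous (by fun_prop)
    intro s
    rw [mem_ball_zero_iff, norm_mul, Complex.norm_exp_I_mul_ofReal, mul_one, Complex.norm_real,
      Real.norm_of_nonneg (by linarith)]
    linarith
  have hG0 : ∀ s, 0 ≤ G s := fun s => trunc_nonneg _ _
  have hGp : Function.Periodic G (2 * Real.pi) := by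
    intro s
    simp only [G]
    congr 2
    rw [ofReal_add, mul_add, Complex.exp_add]
    have : exp (I * ((2 * Real.pi : ℝ) : ℂ)) = 1 := by
      have := Complex.exp_two_pi_mul_I
      rw [← this]; congr 1; push_cast; ring
    rw [this, mul_one]
  have hint : ∀ a b : ℝ, IntervalIntegrable G MeasureTheory.volume a b := fun a b =>
    hGc.intervalIntegrable a b
  have e1 : ∀ θ : ℝ, trunc C (κ * (circleMap 0 1 θ) ^ M) = G ((M : ℝ) * θ + arg κ) := by
    intro θ
    simp only [G, circleMap_zero, ofReal_one, one_mul]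
    congr 1
    have h1 : κ = ((1 - η : ℝ) : ℂ) * exp (arg κ * I) := by
      have := (Complex.norm_mul_exp_arg_mul_I κ).symm
      rwa [hκ] at this
    conv_lhs => rw [h1]
    rw [mul_assoc, ← Complex.exp_nat_mul, ← Complex.exp_add]
    congr 2
    push_cast
    ring
  rw [Real.circleAverage_def]
  simp only [e1]
  have hM0 : (M : ℝ) ≠ 0 := by exact_mod_cast hM
  rw [intervalIntegral.integral_comp_mul_add G hM0]
  have e2 : ∫ x in (M : ℝ) * 0 + arg κ..(M : ℝ) * (2 * Real.pi) + arg κ, G x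
      = (M : ℝ) * ∫ x in -Real.pi..Real.pi, G x := by
    have h1 := hGp.intervalIntegral_add_zsmul_eq (M : ℤ) (arg κ) hint
    have h2 : (M : ℝ) * (2 * Real.pi) + arg κ = arg κ + (M : ℤ) • (2 * Real.pi) := by
      rw [zsmul_eq_mul]; push_cast; ring
    rw [h2, mul_zero, zero_add, h1, zsmul_eq_mul, hGp.intervalIntegral_add_eq (arg κ) (-Real.pi)]
    have h3 : -Real.pi + 2 * Real.pi = Real.pi := by ring
    rw [h3]
    push_cast
    rfl
  rw [e2, smul_eq_mul, smul_eq_mul, ← mul_assoc (M : ℝ)⁻¹, inv_mul_cancel₀ hM0, one_mul]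
  have e3 : ∫ x in -η..η, G x ≤ ∫ x in -Real.pi..Real.pi, G x := by
    apply intervalIntegral.integral_mono_interval (by linarith) (by linarith) (by linarith)
    · exact Filter.Eventually.of_forall hG0
    · exact hint _ _
  have e4 : 1 / 4 ≤ ∫ x in -η..η, G x := by
    have h1 : ∫ x in -η..η, (1 / (8 * η) : ℝ) = 1 / 4 := by
      rw [intervalIntegral.integral_const, smul_eq_mul]
      field_simp
      ring
    rw [← h1]
    apply intervalIntegral.integral_mono_on (by linarith) intervalIntegrable_const (hint _ _)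
    intro s hs
    have hs' : |s| ≤ η := abs_le.2 hs
    have h2 := re_ge hη hη1.le hs'
    refine le_trans ?_ (le_max_right _ _)
    have h3 : C ≤ 1 / (8 * η) := by
      rw [le_div_iff₀ (by positivity)]; linarith
    have h4 : 1 / (4 * η) = 1 / (8 * η) + 1 / (8 * η) := by field_simp; ring
    linarith
  calc 1 / (8 * Real.pi) = (2 * Real.pi)⁻¹ * (1 / 4) := by field_simp; ring
    _ ≤ (2 * Real.pi)⁻¹ * ∫ x in -Real.pi..Real.pi, G x := by
        apply mul_le_mul_of_nonneg_left (e4.trans e3) (by positivity)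

end Pool.Agent.Lib.MP_fcdc87_an
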