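import Pool.Agent.Lib.MP_fcdc87_an.Phi

/-!
# The unit ball is B-regular
-/

set_option autoImplicit false

open Set Metric Filter Topology Complex

namespace Pool.Agent.Lib.MP_fcdc87_an

variable {n : ℕ}

/-- Real affine functions. -/
noncomputable def aff (p : ℝ × Cn n) (x : Cn n) : ℝ := p.1 + (inner ℂ p.2 x).re

theorem continuous_aff (p : ℝ × Cn n) : Continuous (aff p) := by
  unfold aff
  fun_prop

theorem aff_combo (p : ℝ × Cn n) {x y : Cn n} {a b : ℝ} (hab : a + b = 1) :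
    aff p (a • x + b • y) = a * aff p x + b * aff p y := by
  unfold aff
  have h1 : a • x = (a : ℂ) • x := by simp
  have h2 : b • y = (b : ℂ) • y := by simp
  rw [h1, h2, inner_add_right, inner_smul_right, inner_smul_right]
  simp only [add_re, mul_re, ofReal_re, ofReal_im, zero_mul, sub_zero]
  have : p.1 = (a + b) * p.1 := by rw [hab, one_mul]
  linear_combination this

theorem aff_le_aff [Nontrivial (Cn n)] {p p' : ℝ × Cn n}
    (h : ∀ ξ ∈ sphere (0 : Cn n) 1, aff p ξ ≤ aff p' ξ) :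
    ∀ x ∈ closedBall (0 : Cn n) 1, aff p x ≤ aff p' x := by
  have hconv : Convex ℝ {x : Cn n | aff p x ≤ aff p' x} := by
    intro x hx y hy a b ha hb hab
    have hx' : aff p x ≤ aff p' x := hx
    have hy' : aff p y ≤ aff p' y := hy
    change aff p (a • x + b • y) ≤ aff p' (a • x + b • y)
    rw [aff_combo p hab, aff_combo p' hab]
    nlinarith
  intro x hx
  have h1 := convexHull_sphere_eq_closedBall (F := Cn n) (0 : Cn n) (zero_le_one (α := ℝ))
  rw [← h1] at hx
  exact convexHull_min (fun ξ hξ => h ξ hξ) hconv hx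

/-- The affine functions `≤ f` on the sphere. -/
def lower (f : Cn n → ℝ) : Set (ℝ × Cn n) := {p | ∀ ξ ∈ sphere (0 : Cn n) 1, aff p ξ ≤ f ξ}

/-- The convex envelope. -/
noncomputable def env (f : Cn n → ℝ) (x : Cn n) : ℝ := ⨆ p : lower f, aff (p : ℝ × Cn n) x

section

variable [Nontrivial (Cn n)] {f : Cn n → ℝ} {B : ℝ} (hB : ∀ ξ ∈ sphere (0 : Cn n) 1, |f ξ| ≤ B)

include hB

omit [Nontrivial (Cn n)] in
theorem lower_nonempty : Nonempty (lower f) := by
  refine ⟨⟨(-B, 0), fun ξ hξ => ?_⟩⟩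
  have := (abs_le.1 (hB ξ hξ)).1
  simpa [aff] using this

theorem bddAbove_env {x : Cn n} (hx : x ∈ closedBall (0 : Cn n) 1) :
    BddAbove (range fun p : lower f => aff (p : ℝ × Cn n) x) := by
  refine ⟨B, ?_⟩
  rintro _ ⟨p, rfl⟩
  have h1 : ∀ ξ ∈ sphere (0 : Cn n) 1, aff (p : ℝ × Cn n) ξ ≤ aff ((B, 0) : ℝ × Cn n) ξ := by
    intro ξ hξ
    have h2 := p.2 ξ hξ
    have h3 := (abs_le.1 (hB ξ hξ)).2
    have h4 : aff ((B, 0) : ℝ × Cn n) ξ = B := by simp [aff]
    rw [h4]
    exact h2.trans h3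
  have h5 := aff_le_aff h1 x hx
  have h4 : aff ((B, 0) : ℝ × Cn n) x = B := by simp [aff]
  rwa [h4] at h5

theorem aff_le_env {p : ℝ × Cn n} (hp : p ∈ lower f) {x : Cn n}
    (hx : x ∈ closedBall (0 : Cn n) 1) : aff p x ≤ env f x :=
  le_ciSup (bddAbove_env hB hx) ⟨p, hp⟩

theorem env_le {x : Cn n} {c : ℝ} (h : ∀ p ∈ lower f, aff p x ≤ c) : env f x ≤ c := by
  have := lower_nonempty hB
  exact ciSup_le fun p => h p p.2

theorem convexOn_env : ConvexOn ℝ (ball (0 : Cn n) 1) (env f) := by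
  refine ⟨convex_ball _ _, fun x hx y hy a b ha hb hab => ?_⟩
  apply env_le hB
  intro p hp
  rw [aff_combo p hab, smul_eq_mul, smul_eq_mul]
  have h1 := aff_le_env hB hp (ball_subset_closedBall hx)
  have h2 := aff_le_env hB hp (ball_subset_closedBall hy)
  nlinarith

omit [Nontrivial (Cn n)] in
theorem barrier (hf : ContinuousOn f (sphere 0 1)) {ξ₀ : Cn n} (hξ₀ : ξ₀ ∈ sphere (0 : Cn n) 1)
    {ε : ℝ} (hε : 0 < ε) : ∃ M : ℝ, ∀ ξ ∈ sphere (0 : Cn n) 1,
      |f ξ - f ξ₀| ≤ ε + M * (1 - (inner ℂ ξ₀ ξ).re) := by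
  have hB0 : 0 ≤ B := (abs_nonneg _).trans (hB ξ₀ hξ₀)
  obtain ⟨δ, hδ, h⟩ := Metric.continuousOn_iff.1 hf ξ₀ hξ₀ ε hε
  refine ⟨4 * B / δ ^ 2, fun ξ hξ => ?_⟩
  have hn : ‖ξ‖ = 1 := by simpa using hξ
  have hn0 : ‖ξ₀‖ = 1 := by simpa using hξ₀
  have h1 : ‖ξ - ξ₀‖ ^ 2 = 2 * (1 - (inner ℂ ξ₀ ξ).re) := by
    have := norm_sub_sq (𝕜 := ℂ) ξ₀ ξ
    rw [norm_sub_rev, this, hn, hn0]
    simp only [RCLike.re_to_complex]
    ring
  have h2 : 0 ≤ 1 - (inner ℂ ξ₀ ξ).re := by nlinarith [sq_nonneg ‖ξ - ξ₀‖]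
  rcases lt_or_ge (dist ξ ξ₀) δ with h3 | h3
  · have h4 := h ξ hξ h3
    rw [Real.dist_eq] at h4
    have h5 : 0 ≤ 4 * B / δ ^ 2 * (1 - (inner ℂ ξ₀ ξ).re) := by positivity
    linarith
  · rw [dist_eq_norm] at h3
    have h4 : δ ^ 2 ≤ 2 * (1 - (inner ℂ ξ₀ ξ).re) := by
      rw [← h1]; gcongr
    have h5 : 2 * B ≤ 4 * B / δ ^ 2 * (1 - (inner ℂ ξ₀ ξ).re) := by
      rw [div_mul_eq_mul_div, le_div_iff₀ (by positivity)]
      nlinarith
    have h6 : |f ξ - f ξ₀| ≤ 2 * B := by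
      have := abs_sub (f ξ) (f ξ₀)
      have := hB ξ hξ
      have := hB ξ₀ hξ₀
      linarith
    linarith

theorem env_near (hf : ContinuousOn f (sphere 0 1)) {ξ₀ : Cn n} (hξ₀ : ξ₀ ∈ sphere (0 : Cn n) 1)
    {ε : ℝ} (hε : 0 < ε) : ∃ M : ℝ, ∀ x ∈ closedBall (0 : Cn n) 1,
      |env f x - f ξ₀| ≤ ε + M * (1 - (inner ℂ ξ₀ x).re) := by
  obtain ⟨M, hM⟩ := barrier hB hf hξ₀ hε
  refine ⟨M, fun x hx => ?_⟩
  rw [abs_le]
  constructor
  · let p : ℝ × Cn n := (f ξ₀ - ε - M, (M : ℂ) • ξ₀)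
    have hp : ∀ y, aff p y = f ξ₀ - ε - M * (1 - (inner ℂ ξ₀ y).re) := by
      intro y
      simp only [aff, p, inner_smul_left, conj_ofReal, mul_re, ofReal_re, ofReal_im, zero_mul,
        sub_zero]
      ring
    have hpl : p ∈ lower f := by
      intro ξ hξ
      rw [hp]
      have := (abs_le.1 (hM ξ hξ)).1
      linarith
    have := aff_le_env hB hpl hx
    rw [hp] at this
    linarith
  · let p : ℝ × Cn n := (f ξ₀ + ε + M, (-M : ℂ) • ξ₀)
    have hp : ∀ y, aff p y = f ξ₀ + ε + M * (1 - (inner ℂ ξ₀ y).re) := by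
      intro y
      simp only [aff, p, inner_smul_left, map_neg, conj_ofReal, mul_re, neg_re, neg_im, ofReal_re,
        ofReal_im, neg_zero, zero_mul, sub_zero]
      ring
    have : env f x ≤ f ξ₀ + ε + M * (1 - (inner ℂ ξ₀ x).re) := by
      apply env_le hB
      intro p' hp'
      rw [← hp]
      apply aff_le_aff _ x hx
      intro ξ hξ
      rw [hp]
      have h1 := hp' ξ hξ
      have h2 := (abs_le.1 (hM ξ hξ)).2
      linarith
    linarith

theorem env_eq (hf : ContinuousOn f (sphere 0 1)) {ξ₀ : Cn n} (hξ₀ : ξ₀ ∈ sphere (0 : Cn n) 1) :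
    env f ξ₀ = f ξ₀ := by
  have hn0 : ‖ξ₀‖ = 1 := by simpa using hξ₀
  have hin : (inner ℂ ξ₀ ξ₀ : ℂ).re = 1 := by
    have := inner_self_eq_norm_sq (𝕜 := ℂ) ξ₀
    rw [hn0] at this
    simpa using this
  have h0 : |env f ξ₀ - f ξ₀| ≤ 0 := by
    apply le_of_forall_pos_le_add
    intro ε hε
    obtain ⟨M, hM⟩ := env_near hB hf hξ₀ hε
    have := hM ξ₀ (sphere_subset_closedBall hξ₀)
    rw [hin] at this
    linarith
  have := abs_nonpos_iff.1 h0
  linarith

theorem continuousOn_env (hf : ContinuousOn f (sphere 0 1)) :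
    ContinuousOn (env f) (closedBall (0 : Cn n) 1) := by
  intro x hx
  rcases (mem_closedBall_zero_iff.1 hx).lt_or_eq with h | h
  · have hx' : x ∈ ball (0 : Cn n) 1 := by simpa using h
    exact ((convexOn_env hB).continuousOn isOpen_ball).continuousAt
      (isOpen_ball.mem_nhds hx') |>.continuousWithinAt
  · have hx' : x ∈ sphere (0 : Cn n) 1 := by simpa using h
    rw [Metric.continuousWithinAt_iff']
    intro ε hε
    obtain ⟨M, hM⟩ := env_near hB hf hx' (half_pos hε)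
    have hin : (inner ℂ x x : ℂ).re = 1 := by
      have := inner_self_eq_norm_sq (𝕜 := ℂ) x
      rw [h] at this
      simpa using this
    have hc : Tendsto (fun y : Cn n => ε / 2 + M * (1 - (inner ℂ x y).re)) (𝓝[closedBall 0 1] x)
        (𝓝 (ε / 2 + M * (1 - (inner ℂ x x).re))) := by
      have : Continuous fun y : Cn n => ε / 2 + M * (1 - (inner ℂ x y).re) := by fun_prop
      exact (this.tendsto x).mono_left nhdsWithin_le_nhds
    rw [hin, sub_self, mul_zero, add_zero] at hc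
    filter_upwards [hc.eventually (gt_mem_nhds (half_lt_self hε)), self_mem_nhdsWithin] with y hy1 hy2
    rw [Real.dist_eq, env_eq hB hf hx']
    exact (hM y hy2).trans_lt hy1

theorem isPSH_env (hf : ContinuousOn f (sphere 0 1)) :
    IsPSH (ball (0 : Cn n) 1) (fun z => (env f z : EReal)) := by
  have hc : ContinuousOn (env f) (ball (0 : Cn n) 1) :=
    (continuousOn_env hB hf).mono ball_subset_closedBall
  apply isPSH_of_continuousOn hc
  intro a b hab
  apply env_le hB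
  intro p hp
  have e1 : Real.circleAverage (fun t : ℂ => aff p (a + t • b)) 0 1 = aff p a := by
    have h1 : Differentiable ℂ fun t : ℂ => (p.1 : ℂ) + inner ℂ p.2 a + t * inner ℂ p.2 b := by
      fun_prop
    have h2 := circleAverage_re h1
    have h3 : (fun t : ℂ => ((p.1 : ℂ) + inner ℂ p.2 a + t * inner ℂ p.2 b).re)
        = fun t : ℂ => aff p (a + t • b) := by
      funext t
      unfold aff
      rw [inner_add_right, inner_smul_right]
      simp only [add_re, ofReal_re]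
      ring
    rw [h3] at h2
    rw [h2]
    simp [aff]
  rw [← e1]
  have hcomp : ∀ {g : Cn n → ℝ}, ContinuousOn g (ball 0 1) →
      ContinuousOn (fun t : ℂ => g (a + t • b)) (sphere 0 1) := by
    intro g hg
    refine hg.comp (continuous_disc a b).continuousOn ?_
    intro t ht
    have ht' : ‖t‖ = 1 := by simpa using ht
    exact hab t ht'.le
  apply Real.circleAverage_mono
  · exact circleIntegrable_of_continuousOn (hcomp (continuous_aff p).continuousOn)
  · exact circleIntegrable_of_continuousOn (hcomp hc)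
  · intro t ht
    have ht' : ‖t‖ = 1 := by simpa using ht
    exact aff_le_env hB hp (ball_subset_closedBall (hab t ht'.le))

end

theorem isBRegular_ball [Nontrivial (Cn n)] : IsBRegular (ball (0 : Cn n) 1) := by
  refine ⟨isOpen_ball, ?_, isBounded_ball, ?_⟩
  · exact (convex_ball _ _).isConnected ⟨0, by simp⟩
  · intro f hf
    rw [frontier_ball _ one_ne_zero] at hf
    obtain ⟨B, hB⟩ := (isCompact_sphere (0 : Cn n) 1).exists_bound_of_continuousOn hf
    refine ⟨env f, ?_, ?_, ?_⟩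
    · rw [closure_ball _ one_ne_zero]
      exact continuousOn_env (fun ξ hξ => by simpa using hB ξ hξ) hf
    · intro z hz
      rw [frontier_ball _ one_ne_zero] at hz
      exact env_eq (fun ξ hξ => by simpa using hB ξ hξ) hf hz
    · exact isPSH_env (fun ξ hξ => by simpa using hB ξ hξ) hf

end Pool.Agent.Lib.MP_fcdc87_an
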