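import Mathlib

/-!
# Plurisubharmonic functions, B-regular domains, Green-Poisson residual functions
-/

set_option autoImplicit false

open Set Metric Filter Topology

namespace Pool.Agent.Lib.MP_fcdc87_an

/-- `ℂⁿ` with its Euclidean norm. -/
abbrev Cn (n : ℕ) : Type := EuclideanSpace ℂ (Fin n)

/-- `u` is plurisubharmonic on the open set `D`: its values on `D` are in `[-∞, ∞)`, it is upper
semicontinuous on `D`, and it satisfies the sub-mean value inequality on every closed disc
`{a + t b : |t| ≤ 1}` contained in `D`.  The mean over the circle of the upper semicontinuous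
function `t ↦ u (a + t b)` is the infimum of the means of the continuous real functions `h` that
are `≥ u (a + t b)` on the circle, so the inequality is stated with these `h`. -/
def IsPSH {n : ℕ} (D : Set (Cn n)) (u : Cn n → EReal) : Prop :=
  (∀ z ∈ D, u z ≠ ⊤) ∧ UpperSemicontinuousOn u D ∧
    ∀ a b : Cn n, (∀ t : ℂ, ‖t‖ ≤ 1 → a + t • b ∈ D) →
      ∀ h : ℂ → ℝ, ContinuousOn h (sphere 0 1) →
        (∀ t ∈ sphere (0 : ℂ) 1, u (a + t • b) ≤ (h t : EReal)) →
          u a ≤ ((Real.circleAverage h 0 1 : ℝ) : EReal)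

/-- `PSH⁻(D)`: plurisubharmonic functions on `D`, `≤ 0` on `D` and not identically `-∞` on `D`. -/
def IsPSHNeg {n : ℕ} (D : Set (Cn n)) (u : Cn n → EReal) : Prop :=
  IsPSH D u ∧ (∀ z ∈ D, u z ≤ 0) ∧ ∃ z ∈ D, u z ≠ ⊥

/-- Bounded B-regular domains: bounded connected open sets `D` such that every continuous real
function on `∂D` extends to a continuous function on the closure of `D` that is plurisubharmonic
in `D`. -/
def IsBRegular {n : ℕ} (D : Set (Cn n)) : Prop :=
  IsOpen D ∧ IsConnected D ∧ Bornology.IsBounded D ∧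
    ∀ f : Cn n → ℝ, ContinuousOn f (frontier D) →
      ∃ F : Cn n → ℝ, ContinuousOn F (closure D) ∧ (∀ z ∈ frontier D, F z = f z) ∧
        IsPSH D (fun z => (F z : EReal))

/-- The functions `v ∈ PSH⁻(D)` with `v ≤ φ + C` on `D` for some real constant `C`. -/
def minorants {n : ℕ} (D : Set (Cn n)) (φ : Cn n → EReal) : Set (Cn n → EReal) :=
  {v | IsPSHNeg D v ∧ ∃ C : ℝ, ∀ z ∈ D, v z ≤ φ z + (C : EReal)}

/-- The Green-Poisson residual function
`g_φ(z) = limsup_{x → z} sup {v(x) : v ∈ PSH⁻(D), v ≤ φ + C_v on D for some constant C_v}`. -/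
noncomputable def residual {n : ℕ} (D : Set (Cn n)) (φ : Cn n → EReal) (z : Cn n) : EReal :=
  limsup (fun x => ⨆ v ∈ minorants D φ, v x) (𝓝 z)

end Pool.Agent.Lib.MP_fcdc87_an
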