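import Pool.Agent.Lib.MP_fcdc87_an.Defs

/-!
# One-variable facts: maximum principle and a Harnack type inequality
-/

set_option autoImplicit false

open Set Metric Filter Topology Complex

namespace Pool.Agent.Lib.MP_fcdc87_an

/-- A function on the closed unit disc that is upper semicontinuous, `< ∞`, and satisfies the
sub-mean value inequality on all closed discs contained in the closed unit disc. -/
structure DiscSub (w : ℂ → EReal) : Prop where
  ne_top : ∀ t ∈ closedBall (0 : ℂ) 1, w t ≠ ⊤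
  usc : UpperSemicontinuousOn w (closedBall 0 1)
  mean : ∀ (c : ℂ) (r : ℝ), 0 ≤ r → closedBall c r ⊆ closedBall (0 : ℂ) 1 →
    ∀ h : ℂ → ℝ, ContinuousOn h (sphere 0 1) →
      (∀ t ∈ sphere (0 : ℂ) 1, w (c + r * t) ≤ (h t : EReal)) →
        w c ≤ ((Real.circleAverage h 0 1 : ℝ) : EReal)

theorem circleAverage_re {P : ℂ → ℂ} (hP : Differentiable ℂ P) :
    Real.circleAverage (fun t => (P t).re) 0 1 = (P 0).re := by
  have h1 : Real.circleAverage (reCLM ∘ P) 0 1 = reCLM (Real.circleAverage P 0 1) :=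
    reCLM.circleAverage_comp_comm (hP.continuous.continuousOn.circleIntegrable')
  have h2 : Real.circleAverage P 0 1 = P 0 := by
    apply DiffContOnCl.circleAverage
    exact hP.diffContOnCl
  rw [h2] at h1
  exact h1

theorem circleIntegrable_of_continuousOn {h : ℂ → ℝ} (hh : ContinuousOn h (sphere 0 1)) :
    CircleIntegrable h 0 1 := by
  apply ContinuousOn.circleIntegrable'
  simpa using hh

/-- Maximum principle. -/
theorem DiscSub.le_re {w : ℂ → EReal} (hw : DiscSub w) {p : ℂ → ℂ} (hp : Differentiable ℂ p)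
    (hb : ∀ t ∈ sphere (0 : ℂ) 1, w t ≤ (((p t).re : ℝ) : EReal)) :
    ∀ t ∈ closedBall (0 : ℂ) 1, w t ≤ (((p t).re : ℝ) : EReal) := by
  intro t₀ ht₀
  by_contra hcon
  push Not at hcon
  -- a real number strictly between
  obtain ⟨m, hm1, hm2⟩ : ∃ m : ℝ, (((p t₀).re : ℝ) : EReal) < (m : EReal) ∧ (m : EReal) < w t₀ := by
    obtain ⟨m, h1, h2⟩ := EReal.lt_iff_exists_real_btwn.1 hcon
    exact ⟨m, h1, h2⟩
  have hm1' : (p t₀).re < m := by exact_mod_cast hm1
  set ε : ℝ := (m - (p t₀).re) / 2 with hε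
  have hε0 : 0 < ε := by rw [hε]; linarith
  -- the perturbed function
  let k : ℂ → ℝ := fun t => -(p t).re + ε * ‖t‖ ^ 2
  have hk : Continuous k := by
    have := hp.continuous
    fun_prop
  let g : ℂ → EReal := fun t => w t + (k t : EReal)
  have hg : UpperSemicontinuousOn g (closedBall 0 1) := by
    refine UpperSemicontinuousOn.add' hw.usc ?_ ?_
    · exact (continuous_coe_real_ereal.comp hk).continuousOn.upperSemicontinuousOn
    · intro x _
      apply EReal.continuousAt_add
      · right; exact EReal.coe_ne_bot _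
      · right; exact EReal.coe_ne_top _
  obtain ⟨t₁, ht₁, hmax⟩ := UpperSemicontinuousOn.exists_isMaxOn ⟨t₀, ht₀⟩
    (isCompact_closedBall (0 : ℂ) 1) hg
  have hmax' : ∀ t ∈ closedBall (0 : ℂ) 1, g t ≤ g t₁ := fun t ht => hmax ht
  have hgt0 : ((2 * ε : ℝ) : EReal) < g t₀ := by
    have h1 : ((m + k t₀ : ℝ) : EReal) < g t₀ := by
      change _ < w t₀ + (k t₀ : EReal)
      rw [EReal.coe_add]
      exact EReal.add_lt_add_right_coe hm2 _
    refine lt_of_le_of_lt ?_ h1
    have : 2 * ε ≤ m + k t₀ := by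
      have h2 : 0 ≤ ε * ‖t₀‖ ^ 2 := by positivity
      simp only [k]
      rw [hε] at h2 ⊢
      linarith
    exact_mod_cast this
  have hgt1 : ((2 * ε : ℝ) : EReal) < g t₁ := lt_of_lt_of_le hgt0 (hmax' t₀ ht₀)
  have hwt1 : w t₁ ≠ ⊤ := hw.ne_top t₁ ht₁
  have hwb1 : w t₁ ≠ ⊥ := by
    intro h
    have : g t₁ = ⊥ := by simp only [g, h, EReal.bot_add]
    rw [this] at hgt1
    exact not_lt_bot hgt1
  obtain ⟨W, hW⟩ : ∃ W : ℝ, w t₁ = (W : EReal) := ⟨(w t₁).toReal, (EReal.coe_toReal hwt1 hwb1).symm⟩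
  have hg1 : g t₁ = ((W + k t₁ : ℝ) : EReal) := by
    simp only [g, hW, EReal.coe_add]
  have hG : 2 * ε < W + k t₁ := by
    rw [hg1] at hgt1
    exact_mod_cast hgt1
  -- `t₁` is an interior point
  have hint : ‖t₁‖ < 1 := by
    have hle : ‖t₁‖ ≤ 1 := by simpa using ht₁
    rcases hle.lt_or_eq with h | h
    · exact h
    exfalso
    have hs : t₁ ∈ sphere (0 : ℂ) 1 := by simpa using h
    have h1 := hb t₁ hs
    rw [hW] at h1
    have h2 : W ≤ (p t₁).re := by exact_mod_cast h1
    have h3 : k t₁ = -(p t₁).re + ε := by simp only [k, h]; ring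
    linarith
  -- mean value inequality at `t₁`
  set r : ℝ := 1 - ‖t₁‖ with hr
  have hr0 : 0 < r := by rw [hr]; linarith
  have hsub : closedBall t₁ r ⊆ closedBall (0 : ℂ) 1 := by
    intro t ht
    rw [mem_closedBall_iff_norm] at ht
    rw [mem_closedBall_zero_iff]
    calc ‖t‖ = ‖(t - t₁) + t₁‖ := by ring_nf
      _ ≤ ‖t - t₁‖ + ‖t₁‖ := norm_add_le _ _
      _ ≤ r + ‖t₁‖ := by linarith
      _ = 1 := by rw [hr]; ring
  let P : ℂ → ℂ := fun t => p (t₁ + r * t) - (2 * ε * r * (starRingEnd ℂ t₁)) * t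
  have hP : Differentiable ℂ P := by
    intro t
    apply DifferentiableAt.sub
    · exact (hp _).comp t (by fun_prop)
    · fun_prop
  let h : ℂ → ℝ := fun t => (P t).re + (W - (p t₁).re - ε * r ^ 2)
  have hhc : Continuous h := by
    have := hP.continuous
    fun_prop
  have havg : Real.circleAverage h 0 1 = W - ε * r ^ 2 := by
    have h1 : Real.circleAverage h 0 1
        = Real.circleAverage (fun t => (P t).re) 0 1
          + Real.circleAverage (fun _ => W - (p t₁).re - ε * r ^ 2) 0 1 := by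
      apply Real.circleAverage_fun_add
      · apply circleIntegrable_of_continuousOn
        have := hP.continuous
        fun_prop
      · apply circleIntegrable_of_continuousOn
        fun_prop
    rw [h1, circleAverage_re hP, Real.circleAverage_const]
    simp only [P, mul_zero, add_zero, sub_zero]
    ring
  have hmean := hw.mean t₁ r hr0.le hsub h hhc.continuousOn ?_
  · rw [havg, hW] at hmean
    have h2 : W ≤ W - ε * r ^ 2 := by exact_mod_cast hmean
    have h3 : 0 < ε * r ^ 2 := by positivity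
    linarith
  · intro t ht
    have htn : ‖t‖ = 1 := by simpa using ht
    have hmem : t₁ + r * t ∈ closedBall (0 : ℂ) 1 := by
      apply hsub
      rw [mem_closedBall_iff_norm]
      have : t₁ + r * t - t₁ = r * t := by ring
      rw [this, norm_mul, htn, mul_one, Complex.norm_real, Real.norm_of_nonneg hr0.le]
    have h1 := hmax' _ hmem
    rw [hg1] at h1
    have h2 : w (t₁ + r * t) ≤ ((W + k t₁ - k (t₁ + r * t) : ℝ) : EReal) := by
      have h3 : w (t₁ + r * t) + (k (t₁ + r * t) : EReal) ≤ ((W + k t₁ : ℝ) : EReal) := h1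
      rw [EReal.coe_sub]
      exact EReal.le_sub_iff_add_le (Or.inl (EReal.coe_ne_bot _)) (Or.inl (EReal.coe_ne_top _))
        |>.2 h3
    refine h2.trans ?_
    have h4 : W + k t₁ - k (t₁ + r * t) = h t := by
      have h5 : ‖t₁ + r * t‖ ^ 2 = ‖t₁‖ ^ 2 + r ^ 2 + 2 * r * ((starRingEnd ℂ t₁) * t).re := by
        have h6 := Complex.normSq_add t₁ (r * t)
        rw [Complex.normSq_eq_norm_sq, Complex.normSq_eq_norm_sq, Complex.normSq_eq_norm_sq] at h6
        rw [h6, norm_mul, htn, Complex.norm_real, Real.norm_of_nonneg hr0.le]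
        simp only [map_mul, mul_re, conj_re, conj_im, conj_ofReal, ofReal_re, ofReal_im, mul_im]
        ring
      simp only [h, P, k, h5]
      simp only [sub_re, mul_re, mul_im, ofReal_re, ofReal_im, re_ofNat, im_ofNat, conj_re,
        conj_im]
      ring
    rw [h4]

end Pool.Agent.Lib.MP_fcdc87_an
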