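import Pool.Agent.Lib.MP_fcdc87_an.Disc

/-!
# A Harnack type inequality for nonpositive subharmonic functions on the disc
-/

set_option autoImplicit false

open Set Metric Filter Topology Complex

namespace Pool.Agent.Lib.MP_fcdc87_an

/-- Continuous real functions on the circle are uniform limits of real parts of polynomials. -/
theorem exists_re_approx {ψ : ℂ → ℝ} (hψ : ContinuousOn ψ (sphere 0 1)) {ε : ℝ} (hε : 0 < ε) :
    ∃ P : ℂ → ℂ, Differentiable ℂ P ∧ ∀ t ∈ sphere (0 : ℂ) 1, |ψ t - (P t).re| ≤ ε := by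
  have : Fact (0 < 2 * Real.pi) := ⟨Real.two_pi_pos⟩
  let f : C(AddCircle (2 * Real.pi), ℂ) :=
    ⟨fun x => ((ψ (AddCircle.toCircle x : ℂ) : ℝ) : ℂ), by
      apply continuous_ofReal.comp
      have h1 : Continuous fun x : AddCircle (2 * Real.pi) => (AddCircle.toCircle x : ℂ) :=
        continuous_subtype_val.comp AddCircle.continuous_toCircle
      exact hψ.comp_continuous h1 (fun x => by
        rw [mem_sphere_zero_iff_norm]; exact Circle.norm_coe _)⟩
  have hf : f ∈ (Submodule.span ℂ (range (@fourier (2 * Real.pi)))).topologicalClosure := by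
    rw [span_fourier_closure_eq_top]; trivial
  have hf' : f ∈ closure (Submodule.span ℂ (range (@fourier (2 * Real.pi))) :
      Set C(AddCircle (2 * Real.pi), ℂ)) := hf
  obtain ⟨g, hg, hfg⟩ := Metric.mem_closure_iff.1 hf' ε hε
  have key : ∀ g ∈ Submodule.span ℂ (range (@fourier (2 * Real.pi))),
      ∃ P Q : ℂ → ℂ, Differentiable ℂ P ∧ Differentiable ℂ Q ∧
        ∀ x : AddCircle (2 * Real.pi), g x = P (AddCircle.toCircle x : ℂ)
          + starRingEnd ℂ (Q (AddCircle.toCircle x : ℂ)) := by
    intro g hg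
    induction hg using Submodule.span_induction with
    | mem g hg =>
      obtain ⟨n, rfl⟩ := hg
      obtain ⟨m, rfl | rfl⟩ := n.eq_nat_or_neg
      · refine ⟨fun z => z ^ m, fun _ => 0, by fun_prop, by fun_prop, fun x => ?_⟩
        rw [fourier_apply, AddCircle.toCircle_zsmul]
        simp
      · refine ⟨fun _ => 0, fun z => z ^ m, by fun_prop, by fun_prop, fun x => ?_⟩
        rw [fourier_neg, fourier_apply, AddCircle.toCircle_zsmul]
        simp
    | zero => exact ⟨fun _ => 0, fun _ => 0, by fun_prop, by fun_prop, fun x => by simp⟩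
    | add g g' _ _ h h' =>
      obtain ⟨P, Q, hP, hQ, e⟩ := h
      obtain ⟨P', Q', hP', hQ', e'⟩ := h'
      refine ⟨fun z => P z + P' z, fun z => Q z + Q' z, by fun_prop, by fun_prop, fun x => ?_⟩
      rw [ContinuousMap.add_apply, e, e', map_add]
      ring
    | smul c g _ h =>
      obtain ⟨P, Q, hP, hQ, e⟩ := h
      refine ⟨fun z => c * P z, fun z => starRingEnd ℂ c * Q z, by fun_prop, by fun_prop,
        fun x => ?_⟩
      rw [ContinuousMap.smul_apply, e, map_mul, Complex.conj_conj, smul_eq_mul]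
      ring
  obtain ⟨P, Q, hP, hQ, e⟩ := key g hg
  refine ⟨fun z => P z + Q z, by fun_prop, fun t ht => ?_⟩
  have htn : ‖t‖ = 1 := by simpa using ht
  obtain ⟨x, hx⟩ : ∃ x : AddCircle (2 * Real.pi), (AddCircle.toCircle x : ℂ) = t := by
    refine ⟨((Complex.arg t : ℝ) : AddCircle (2 * Real.pi)), ?_⟩
    rw [AddCircle.toCircle_apply_mk, div_self Real.two_pi_pos.ne', one_mul, Circle.coe_exp]
    have := Complex.norm_mul_exp_arg_mul_I t
    rwa [htn, ofReal_one, one_mul] at this
  have h1 : ‖f x - g x‖ ≤ ε := by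
    have := ContinuousMap.dist_apply_le_dist (f := f) (g := g) x
    rw [dist_eq_norm] at this
    linarith
  have h2 : (f x - g x).re = ψ t - (P t + Q t).re := by
    rw [e]
    simp only [f, ContinuousMap.coe_mk, hx, sub_re, add_re, ofReal_re, conj_re]
  rw [← h2]
  exact (abs_re_le_norm _).trans h1

/-- Harnack type inequality: if `w ≤ -ψ` on the circle with `ψ ≥ 0` continuous, then
`w(a) ≤ -((1 - |a|)/(1 + |a|)) · mean ψ`. -/
theorem DiscSub.harnack {w : ℂ → EReal} (hw : DiscSub w) {ψ : ℂ → ℝ}
    (hψc : ContinuousOn ψ (sphere 0 1)) (hψ0 : ∀ t ∈ sphere (0 : ℂ) 1, 0 ≤ ψ t)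
    (hb : ∀ t ∈ sphere (0 : ℂ) 1, w t ≤ ((-ψ t : ℝ) : EReal)) {a : ℂ} (ha : ‖a‖ < 1) :
    w a ≤ ((-((1 - ‖a‖) / (1 + ‖a‖) * Real.circleAverage ψ 0 1) : ℝ) : EReal) := by
  set κ : ℝ := (1 - ‖a‖) / (1 + ‖a‖) with hκ
  have hκ0 : 0 ≤ κ := by
    rw [hκ]; have := norm_nonneg a
    apply div_nonneg <;> linarith
  have haB : a ∈ ball (0 : ℂ) 1 := by simpa using ha
  -- it suffices to prove the inequality up to `2 ε`
  suffices H : ∀ ε : ℝ, 0 < ε → w a ≤ ((-(κ * Real.circleAverage ψ 0 1) + 2 * ε : ℝ) : EReal) by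
    apply le_of_forall_gt_imp_ge_of_dense
    intro y hy
    obtain ⟨m, h1, h2⟩ := EReal.lt_iff_exists_real_btwn.1 hy
    have h1' : -(κ * Real.circleAverage ψ 0 1) < m := by exact_mod_cast h1
    have := H ((m + κ * Real.circleAverage ψ 0 1) / 2) (by linarith)
    refine (this.trans ?_).trans h2.le
    apply le_of_eq
    congr 1
    ring
  intro ε hε
  obtain ⟨P, hP, hPa⟩ := exists_re_approx hψc hε
  have h1 : ∀ t ∈ sphere (0 : ℂ) 1, w t ≤ (((-(P t) + ε : ℂ).re : ℝ) : EReal) := by
    intro t ht
    refine (hb t ht).trans ?_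
    have h2 := (abs_le.1 (hPa t ht)).1
    have h3 : -ψ t ≤ (-(P t) + ε : ℂ).re := by
      simp only [add_re, neg_re, ofReal_re]
      linarith
    exact_mod_cast h3
  have h2 := hw.le_re (p := fun t => -(P t) + ε) (by fun_prop) h1 a (ball_subset_closedBall haB)
  refine h2.trans ?_
  -- Poisson formula for `P`
  let k : ℂ → ℝ := fun z => ((z - 0 + (a - 0)) / (z - 0 - (a - 0))).re
  have hkc : ContinuousOn k (sphere 0 1) := by
    apply continuous_re.comp_continuousOn
    apply ContinuousOn.div (by fun_prop) (by fun_prop)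
    intro z hz hz0
    have hz1 : ‖z‖ = 1 := by simpa using hz
    have : z = a := by linear_combination hz0
    rw [this] at hz1
    linarith
  have hkl : ∀ z ∈ sphere (0 : ℂ) 1, κ ≤ k z := by
    intro z hz
    have := le_re_herglotzRieszKernel hz haB
    simpa [hκ, k] using this
  have hPP : Real.circleAverage (fun z => k z * (P z).re) 0 1 = (P a).re := by
    have e1 := DiffContOnCl.circleAverage_re_herglotzRieszKernel_smul' (c := 0) (R := 1)
      (f := P) (w := a) hP.diffContOnCl haB
    have e2 : Real.circleAverage (reCLM ∘ fun z => k z • P z) 0 1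
        = reCLM (Real.circleAverage (fun z => k z • P z) 0 1) := by
      apply reCLM.circleAverage_comp_comm
      apply ContinuousOn.circleIntegrable'
      rw [abs_one]
      exact hkc.smul hP.continuous.continuousOn
    rw [e1] at e2
    rw [← reCLM_apply (P a), ← e2]
    apply congrArg (fun f => Real.circleAverage f 0 1)
    funext z
    simp
  have hP1 : Real.circleAverage (fun z => k z) 0 1 = 1 := by
    have e1 := DiffContOnCl.circleAverage_re_herglotzRieszKernel_smul' (c := 0) (R := 1)
      (f := fun _ => (1 : ℂ)) (w := a) (by exact diffContOnCl_const) haB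
    have e2 : Real.circleAverage (reCLM ∘ fun z => k z • (1 : ℂ)) 0 1
        = reCLM (Real.circleAverage (fun z => k z • (1 : ℂ)) 0 1) := by
      apply reCLM.circleAverage_comp_comm
      apply ContinuousOn.circleIntegrable'
      rw [abs_one]
      exact hkc.smul continuousOn_const
    rw [e1] at e2
    have e3 : reCLM (1 : ℂ) = 1 := by simp
    rw [e3] at e2
    refine Eq.trans ?_ e2
    apply congrArg (fun f => Real.circleAverage f 0 1)
    funext z
    simp
  have hPc : Continuous fun z => (P z).re := by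
    have := hP.continuous
    fun_prop
  have i1 : CircleIntegrable (fun z => k z * (P z).re) 0 1 :=
    circleIntegrable_of_continuousOn (hkc.mul hPc.continuousOn)
  have i2 : CircleIntegrable (fun z => ε * k z) 0 1 :=
    circleIntegrable_of_continuousOn (continuousOn_const.mul hkc)
  have i3 : CircleIntegrable (fun z => κ * ψ z) 0 1 :=
    circleIntegrable_of_continuousOn (continuousOn_const.mul hψc)
  have e4 : Real.circleAverage (fun z => k z * (P z).re + ε * k z) 0 1 = (P a).re + ε := by
    rw [Real.circleAverage_fun_add i1 i2, hPP]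
    have : Real.circleAverage (fun z => ε * k z) 0 1 = ε * Real.circleAverage (fun z => k z) 0 1 := by
      have := Real.circleAverage_fun_smul (a := ε) (f := fun z => k z) (c := 0) (R := 1)
      simpa using this
    rw [this, hP1, mul_one]
  have e5 : Real.circleAverage (fun z => κ * ψ z) 0 1 = κ * Real.circleAverage ψ 0 1 := by
    have := Real.circleAverage_fun_smul (a := κ) (f := fun z => ψ z) (c := 0) (R := 1)
    simpa using this
  have e6 : κ * Real.circleAverage ψ 0 1 ≤ (P a).re + ε := by
    rw [← e4, ← e5]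
    apply Real.circleAverage_mono i3 (i1.add i2)
    intro z hz
    rw [abs_one] at hz
    have a1 := hkl z hz
    have a2 := (abs_le.1 (hPa z hz)).2
    have a3 := hψ0 z hz
    have a4 : 0 ≤ k z := hκ0.trans a1
    calc κ * ψ z ≤ k z * ψ z := by gcongr
      _ ≤ k z * ((P z).re + ε) := by
          apply mul_le_mul_of_nonneg_left _ a4
          linarith
      _ = k z * (P z).re + ε * k z := by ring
  have e7 : (-(P a) + ε : ℂ).re ≤ -(κ * Real.circleAverage ψ 0 1) + 2 * ε := by
    simp only [add_re, neg_re, ofReal_re]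
    linarith
  exact_mod_cast e7

end Pool.Agent.Lib.MP_fcdc87_an
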