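import Pool.Agent.Lib.MP_fcdc87_an.Average

/-!
# Powers of normalized monomials on the unit ball of `ℂ^(m+2)`
-/

set_option autoImplicit false

open Set Metric Filter Topology Complex

namespace Pool.Agent.Lib.MP_fcdc87_an

variable (m : ℕ)

/-- Exponents. -/
def ex (K : ℕ) (i : Fin (m + 2)) : ℕ := if i = 0 then K + 1 else K + 2

/-- Total exponent. -/
def tot (K : ℕ) : ℕ := ∑ i, ex m K i

/-- Squared radii of the torus. -/
noncomputable def tau (K : ℕ) (i : Fin (m + 2)) : ℝ := (ex m K i : ℝ) / (tot m K : ℝ)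

theorem ex_pos (K : ℕ) (i : Fin (m + 2)) : 0 < ex m K i := by
  unfold ex; split <;> omega

theorem tot_eq (K : ℕ) : tot m K = (K + 1) + (m + 1) * (K + 2) := by
  unfold tot
  rw [Fin.sum_univ_succ]
  simp [ex]

theorem tot_pos (K : ℕ) : 0 < tot m K := by
  rw [tot_eq]; positivity

theorem tau_pos (K : ℕ) (i : Fin (m + 2)) : 0 < tau m K i := by
  unfold tau
  have := ex_pos m K i
  have := tot_pos m K
  positivity

theorem sum_tau (K : ℕ) : ∑ i, tau m K i = 1 := by
  unfold tau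
  rw [← Finset.sum_div, ← Nat.cast_sum]
  have := tot_pos m K
  have h : (0 : ℝ) < (tot m K : ℝ) := by exact_mod_cast this
  change ((tot m K : ℕ) : ℝ) / (tot m K : ℝ) = 1
  exact div_self h.ne'

theorem tau_ge (K : ℕ) (i : Fin (m + 2)) : 1 / (2 * (m + 2) : ℝ) ≤ tau m K i := by
  unfold tau
  have h : (0 : ℝ) < (tot m K : ℝ) := by exact_mod_cast tot_pos m K
  rw [div_le_div_iff₀ (by positivity) h, one_mul]
  have h1 : (tot m K : ℝ) = (K + 1) + (m + 1) * (K + 2) := by
    rw [tot_eq]; push_cast; ring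
  have h2 : ((K + 1 : ℕ) : ℝ) ≤ (ex m K i : ℝ) := by
    unfold ex; split
    · exact le_rfl
    · exact_mod_cast (by omega)
  push_cast at h2
  have hK : (0 : ℝ) ≤ K := Nat.cast_nonneg K
  have hm : (0 : ℝ) ≤ m := Nat.cast_nonneg m
  rw [h1]
  nlinarith [mul_nonneg hK hm, mul_le_mul_of_nonneg_right h2 (by positivity : (0 : ℝ) ≤ 2 * (m + 2))]

theorem tau_strictMono : StrictMono fun K => tau m K 0 := by
  apply strictMono_nat_of_lt_succ
  intro K
  unfold tau
  have h : (0 : ℝ) < (tot m K : ℝ) := by exact_mod_cast tot_pos m K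
  have h' : (0 : ℝ) < (tot m (K + 1) : ℝ) := by exact_mod_cast tot_pos m (K + 1)
  rw [div_lt_div_iff₀ h h', tot_eq, tot_eq]
  simp only [ex, if_true]
  push_cast
  have hK : (0 : ℝ) ≤ K := Nat.cast_nonneg K
  have hm : (0 : ℝ) ≤ m := Nat.cast_nonneg m
  nlinarith [mul_nonneg hK hm]

theorem exists_isolated {f : ℕ → ℝ} (hf : StrictMono f) (K : ℕ) :
    ∃ ε : ℝ, 0 < ε ∧ ∀ K', K' ≠ K → 2 * ε ≤ |f K' - f K| := by
  rcases Nat.eq_zero_or_pos K with rfl | hK
  · refine ⟨(f 1 - f 0) / 2, by have := hf (zero_lt_one); linarith, fun K' hK' => ?_⟩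
    have h1 : 1 ≤ K' := Nat.pos_of_ne_zero hK'
    have h2 := hf.monotone h1
    have h3 := le_abs_self (f K' - f 0)
    linarith
  · have a1 := hf (Nat.lt_succ_self K)
    have a2 := hf (Nat.sub_lt hK zero_lt_one)
    refine ⟨min ((f (K + 1) - f K) / 2) ((f K - f (K - 1)) / 2), ?_, fun K' hK' => ?_⟩
    · apply lt_min
      · simp only [Nat.succ_eq_add_one] at a1; linarith
      · linarith
    · rcases lt_or_gt_of_ne hK' with h | h
      · have h2 := hf.monotone (Nat.le_sub_one_of_lt h)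
        have h3 := neg_le_abs (f K' - f K)
        have h4 := min_le_right ((f (K + 1) - f K) / 2) ((f K - f (K - 1)) / 2)
        linarith
      · have h2 := hf.monotone (Nat.succ_le_of_lt h)
        have h3 := le_abs_self (f K' - f K)
        have h4 := min_le_left ((f (K + 1) - f K) / 2) ((f K - f (K - 1)) / 2)
        simp only [Nat.succ_eq_add_one] at h2
        linarith

/-- Half-width of the slab around the torus. -/
noncomputable def eps (K : ℕ) : ℝ := (exists_isolated (tau_strictMono m) K).choose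

theorem eps_pos (K : ℕ) : 0 < eps m K := (exists_isolated (tau_strictMono m) K).choose_spec.1

theorem eps_spec (K K' : ℕ) (h : K' ≠ K) : 2 * eps m K ≤ |tau m K' 0 - tau m K 0| :=
  (exists_isolated (tau_strictMono m) K).choose_spec.2 K' h

theorem eq_of_slabs {x : ℝ} {K K' : ℕ} (h : |x - tau m K 0| < eps m K)
    (h' : |x - tau m K' 0| < eps m K') : K = K' := by
  by_contra hne
  have h1 := eps_spec m K K' (Ne.symm hne)
  have h2 := eps_spec m K' K hne
  rw [abs_sub_comm] at h2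
  have h3 : |tau m K' 0 - tau m K 0| ≤ |x - tau m K 0| + |x - tau m K' 0| := by
    have e : tau m K' 0 - tau m K 0 = (x - tau m K 0) - (x - tau m K' 0) := by ring
    rw [e]
    exact abs_sub _ _
  linarith

/-- The squared modulus of the monomial as a function of the `|z_i|²`. -/
noncomputable def F (K : ℕ) (x : Fin (m + 2) → ℝ) : ℝ := ∏ i, (x i / tau m K i) ^ ex m K i

theorem F_nonneg (K : ℕ) {x : Fin (m + 2) → ℝ} (h0 : ∀ i, 0 ≤ x i) : 0 ≤ F m K x := by
  unfold F
  apply Finset.prod_nonneg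
  intro i _
  have := (tau_pos m K i).le
  have := h0 i
  positivity

theorem continuous_F (K : ℕ) : Continuous (F m K) := by
  unfold F
  fun_prop

theorem sum_exp (K : ℕ) (x : Fin (m + 2) → ℝ) :
    ∏ i, (Real.exp (x i / tau m K i - 1)) ^ ex m K i
      = Real.exp ((tot m K : ℝ) * (∑ i, x i - 1)) := by
  have h : (0 : ℝ) < (tot m K : ℝ) := by exact_mod_cast tot_pos m K
  simp_rw [← Real.exp_nat_mul]
  rw [← Real.exp_sum]
  congr 1
  have e : ∀ i, (ex m K i : ℝ) * (x i / tau m K i - 1)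
      = (tot m K : ℝ) * x i - (ex m K i : ℝ) := by
    intro i
    have h1 : (0 : ℝ) < (ex m K i : ℝ) := by exact_mod_cast ex_pos m K i
    unfold tau
    field_simp
  simp_rw [e]
  rw [Finset.sum_sub_distrib, ← Finset.mul_sum, ← Nat.cast_sum]
  change _ - ((tot m K : ℕ) : ℝ) = _
  ring

theorem F_le_exp (K : ℕ) {x : Fin (m + 2) → ℝ} (h0 : ∀ i, 0 ≤ x i) :
    F m K x ≤ Real.exp ((tot m K : ℝ) * (∑ i, x i - 1)) := by
  rw [← sum_exp]
  unfold F
  apply Finset.prod_le_prod
  · intro i _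
    have := (tau_pos m K i).le
    have := h0 i
    positivity
  · intro i _
    have h1 := (tau_pos m K i).le
    have h2 := h0 i
    have h3 : 0 ≤ x i / tau m K i := by positivity
    have := Real.add_one_le_exp (x i / tau m K i - 1)
    gcongr
    linarith

theorem F_lt_one (K : ℕ) {x : Fin (m + 2) → ℝ} (h0 : ∀ i, 0 ≤ x i) (h1 : ∑ i, x i ≤ 1)
    (h : x 0 ≠ tau m K 0 ∨ ∑ i, x i < 1) : F m K x < 1 := by
  have htot : (0 : ℝ) < (tot m K : ℝ) := by exact_mod_cast tot_pos m K
  rcases h with h | h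
  · have e1 : Real.exp ((tot m K : ℝ) * (∑ i, x i - 1)) ≤ 1 := by
      rw [Real.exp_le_one_iff]
      nlinarith
    refine lt_of_lt_of_le ?_ e1
    rw [← sum_exp]
    unfold F
    rw [Fin.prod_univ_succ (fun i => (x i / tau m K i) ^ ex m K i),
      Fin.prod_univ_succ (fun i => (Real.exp (x i / tau m K i - 1)) ^ ex m K i)]
    have hy : ∀ i, 0 ≤ x i / tau m K i := fun i => div_nonneg (h0 i) (tau_pos m K i).le
    have hle : ∀ i, x i / tau m K i ≤ Real.exp (x i / tau m K i - 1) := by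
      intro i
      have := Real.add_one_le_exp (x i / tau m K i - 1)
      linarith
    have hlt : x 0 / tau m K 0 < Real.exp (x 0 / tau m K 0 - 1) := by
      have hne : x 0 / tau m K 0 - 1 ≠ 0 := by
        intro h2
        apply h
        have h3 := (tau_pos m K 0).ne'
        field_simp at h2
        linarith
      have := Real.add_one_lt_exp hne
      linarith
    calc (x 0 / tau m K 0) ^ ex m K 0 * ∏ i : Fin (m + 1), (x i.succ / tau m K i.succ) ^ ex m K i.succ
        ≤ (x 0 / tau m K 0) ^ ex m K 0 *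
          ∏ i : Fin (m + 1), (Real.exp (x i.succ / tau m K i.succ - 1)) ^ ex m K i.succ := by
          apply mul_le_mul_of_nonneg_left _ (pow_nonneg (hy 0) _)
          apply Finset.prod_le_prod
          · intro i _
            exact pow_nonneg (hy _) _
          · intro i _
            exact pow_le_pow_left₀ (hy _) (hle _) _
      _ < (Real.exp (x 0 / tau m K 0 - 1)) ^ ex m K 0 *
          ∏ i : Fin (m + 1), (Real.exp (x i.succ / tau m K i.succ - 1)) ^ ex m K i.succ := by
          apply mul_lt_mul_of_pos_right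
          · exact pow_lt_pow_left₀ hlt (hy 0) (ex_pos m K 0).ne'
          · apply Finset.prod_pos
            intro i _
            positivity
  · refine lt_of_le_of_lt (F_le_exp m K h0) ?_
    rw [Real.exp_lt_one_iff]
    nlinarith

/-- The compact set of `|z_i|²` on which the powers are to be small. -/
def goodSet (K : ℕ) (ε ρ : ℝ) : Set (Fin (m + 2) → ℝ) :=
  {x | (∀ i, 0 ≤ x i) ∧ ∑ i, x i ≤ 1 ∧ (ε ≤ |x 0 - tau m K 0| ∨ ∑ i, x i ≤ ρ)}

theorem isCompact_goodSet (K : ℕ) (ε ρ : ℝ) : IsCompact (goodSet m K ε ρ) := by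
  have hb : goodSet m K ε ρ ⊆ Set.pi univ fun _ => Icc (0 : ℝ) 1 := by
    intro x hx i _
    refine ⟨hx.1 i, ?_⟩
    refine le_trans ?_ hx.2.1
    exact Finset.single_le_sum (f := x) (fun j _ => hx.1 j) (Finset.mem_univ i)
  refine IsCompact.of_isClosed_subset (isCompact_univ_pi fun _ => isCompact_Icc) ?_ hb
  have h1 : IsClosed {x : Fin (m + 2) → ℝ | ∀ i, 0 ≤ x i} := by
    have : {x : Fin (m + 2) → ℝ | ∀ i, 0 ≤ x i} = ⋂ i, {x | 0 ≤ x i} := by ext x; simp
    rw [this]
    exact isClosed_iInter fun i => isClosed_le continuous_const (continuous_apply i)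
  have h2 : IsClosed {x : Fin (m + 2) → ℝ | ∑ i, x i ≤ 1} :=
    isClosed_le (by fun_prop) continuous_const
  have h3 : IsClosed {x : Fin (m + 2) → ℝ | ε ≤ |x 0 - tau m K 0|} :=
    isClosed_le continuous_const (by fun_prop)
  have h4 : IsClosed {x : Fin (m + 2) → ℝ | ∑ i, x i ≤ ρ} :=
    isClosed_le (by fun_prop) continuous_const
  have : goodSet m K ε ρ = {x : Fin (m + 2) → ℝ | ∀ i, 0 ≤ x i} ∩ ({x | ∑ i, x i ≤ 1} ∩
      ({x | ε ≤ |x 0 - tau m K 0|} ∪ {x | ∑ i, x i ≤ ρ})) := by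
    ext x
    simp only [goodSet, mem_ofPred_eq, mem_inter_iff, mem_union]
  rw [this]
  exact h1.inter (h2.inter (h3.union h4))

theorem exists_pow (K : ℕ) {ε ρ δ : ℝ} (hε : 0 < ε) (hρ : ρ < 1) (hδ : 0 < δ) :
    ∃ N : ℕ, N ≠ 0 ∧ ∀ x ∈ goodSet m K ε ρ, F m K x ^ N ≤ δ := by
  rcases (goodSet m K ε ρ).eq_empty_or_nonempty with h | h
  · refine ⟨1, one_ne_zero, fun x hx => ?_⟩
    rw [h] at hx
    exact absurd hx (notMem_empty x)
  · obtain ⟨y, hy, hmax⟩ := (isCompact_goodSet m K ε ρ).exists_isMaxOn h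
      (continuous_F m K).continuousOn
    have h1 : F m K y < 1 := by
      refine F_lt_one m K hy.1 hy.2.1 ?_
      rcases hy.2.2 with h2 | h2
      · left
        intro h3
        rw [h3, sub_self, abs_zero] at h2
        linarith
      · right; linarith
    have h0 : 0 ≤ F m K y := F_nonneg m K hy.1
    obtain ⟨N, hN⟩ := exists_pow_lt_of_lt_one hδ h1
    refine ⟨N + 1, Nat.succ_ne_zero N, fun x hx => ?_⟩
    have h2 : F m K x ≤ F m K y := hmax hx
    have h3 : 0 ≤ F m K x := F_nonneg m K hx.1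
    calc F m K x ^ (N + 1) ≤ F m K y ^ (N + 1) := pow_le_pow_left₀ h3 h2 _
      _ ≤ F m K y ^ N := pow_le_pow_of_le_one h0 h1.le (Nat.le_succ N)
      _ ≤ δ := hN.le

theorem exists_pow' (K : ℕ) : ∃ N : ℕ, N ≠ 0 ∧
    ∀ x ∈ goodSet m K (eps m K) (1 - 1 / ((K : ℝ) + 2)), F m K x ^ N ≤ (1 / 2 : ℝ) ^ (K + 5) := by
  apply exists_pow m K (eps_pos m K) _ (by positivity)
  have : 0 < 1 / ((K : ℝ) + 2) := by positivity
  linarith

/-- The power. -/
noncomputable def pw (K : ℕ) : ℕ := (exists_pow' m K).choose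

theorem pw_ne_zero (K : ℕ) : pw m K ≠ 0 := (exists_pow' m K).choose_spec.1

theorem pw_spec (K : ℕ) {x : Fin (m + 2) → ℝ}
    (hx : x ∈ goodSet m K (eps m K) (1 - 1 / ((K : ℝ) + 2))) :
    F m K x ^ pw m K ≤ (1 / 2 : ℝ) ^ (K + 5) := (exists_pow' m K).choose_spec.2 x hx

end Pool.Agent.Lib.MP_fcdc87_an
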