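import Pool.Agent.Lib.MP_fcdc87_an.Zeta
import Pool.Agent.Lib.MP_fcdc87_an.Harnack

/-!
# The function `φ = sup_j (-q_j - j)`
-/

set_option autoImplicit false

open Set Metric Filter Topology Complex

namespace Pool.Agent.Lib.MP_fcdc87_an

theorem continuous_disc {n : ℕ} (a b : Cn n) : Continuous fun t : ℂ => a + t • b := by fun_prop

/-- Continuous real functions with the sub-mean value inequality are plurisubharmonic. -/
theorem isPSH_of_continuousOn {n : ℕ} {D : Set (Cn n)} {f : Cn n → ℝ} (hf : ContinuousOn f D)
    (hm : ∀ a b : Cn n, (∀ t : ℂ, ‖t‖ ≤ 1 → a + t • b ∈ D) →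
      f a ≤ Real.circleAverage (fun t => f (a + t • b)) 0 1) :
    IsPSH D (fun z => (f z : EReal)) := by
  refine ⟨fun z _ => EReal.coe_ne_top _, ?_, ?_⟩
  · exact (continuous_coe_real_ereal.comp_continuousOn hf).upperSemicontinuousOn
  · intro a b hab h hh hle
    have h1 : Real.circleAverage (fun t => f (a + t • b)) 0 1 ≤ Real.circleAverage h 0 1 := by
      apply Real.circleAverage_mono
      · apply circleIntegrable_of_continuousOn
        refine hf.comp (continuous_disc a b).continuousOn ?_
        intro t ht
        have ht' : ‖t‖ = 1 := by simpa using ht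
        exact hab t ht'.le
      · exact circleIntegrable_of_continuousOn hh
      · intro t ht
        rw [abs_one] at ht
        exact EReal.coe_le_coe_iff.1 (hle t ht)
    exact EReal.coe_le_coe_iff.2 ((hm a b hab).trans h1)

/-- Plurisubharmonic functions restrict to subharmonic functions on closed discs. -/
theorem IsPSH.discSub {n : ℕ} {D : Set (Cn n)} {u : Cn n → EReal} (hu : IsPSH D u) {a b : Cn n}
    (hab : ∀ t : ℂ, ‖t‖ ≤ 1 → a + t • b ∈ D) : DiscSub fun t : ℂ => u (a + t • b) := by
  refine ⟨?_, ?_, ?_⟩
  · intro t ht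
    exact hu.1 _ (hab t (by simpa using ht))
  · intro t ht
    have ht' : ‖t‖ ≤ 1 := by simpa using ht
    have h1 := hu.2.1 _ (hab t ht')
    intro y hy
    have h2 := h1 y hy
    have h3 : Tendsto (fun t : ℂ => a + t • b) (𝓝[closedBall 0 1] t) (𝓝[D] (a + t • b)) := by
      apply tendsto_nhdsWithin_of_tendsto_nhds_of_eventually_within
      · exact ((continuous_disc a b).tendsto t).mono_left nhdsWithin_le_nhds
      · filter_upwards [self_mem_nhdsWithin] with s hs
        exact hab s (by simpa using hs)
    exact h3.eventually h2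
  · intro c r hr hsub h hh hle
    have h1 := hu.2.2 (a + c • b) ((r : ℂ) • b) ?_ h hh ?_
    · exact h1
    · intro t ht
      have : a + c • b + t • (r : ℂ) • b = a + (c + r * t) • b := by
        rw [smul_smul, add_assoc, ← add_smul]
        congr 2
        ring
      rw [this]
      apply hab
      have h2 : c + r * t ∈ closedBall (0 : ℂ) 1 := by
        apply hsub
        rw [mem_closedBall_iff_norm]
        have h3 : c + r * t - c = r * t := by ring
        rw [h3, norm_mul, Complex.norm_real, Real.norm_of_nonneg hr]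
        nlinarith
      simpa using h2
    · intro t ht
      have : a + c • b + t • (r : ℂ) • b = a + (c + r * t) • b := by
        rw [smul_smul, add_assoc, ← add_smul]
        congr 2
        ring
      rw [this]
      exact hle t ht

variable (m : ℕ)

/-- The function `φ`, real valued. -/
noncomputable def phi (z : Cn (m + 2)) : ℝ := ⨆ j : ℕ, (-q m j z - j)

theorem bddAbove_phi {z : Cn (m + 2)} (hz : ‖z‖ < 1) :
    BddAbove (range fun j : ℕ => -q m j z - j) := by
  refine ⟨0, ?_⟩
  rintro _ ⟨j, rfl⟩
  have h1 := q_pos m j hz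
  have h2 : (0 : ℝ) ≤ j := Nat.cast_nonneg j
  change -q m j z - j ≤ 0
  linarith

theorem le_phi (j : ℕ) {z : Cn (m + 2)} (hz : ‖z‖ < 1) : -q m j z - j ≤ phi m z :=
  le_ciSup (bddAbove_phi m hz) j

theorem phi_nonpos {z : Cn (m + 2)} (hz : ‖z‖ < 1) : phi m z ≤ 0 := by
  apply ciSup_le
  intro j
  have h1 := q_pos m j hz
  have h2 : (0 : ℝ) ≤ j := Nat.cast_nonneg j
  linarith

theorem continuousOn_phi : ContinuousOn (phi m) (ball 0 1) := by
  intro z hz
  have hc0 : ContinuousAt (q m 0) z := (continuousOn_q m 0).continuousAt (isOpen_ball.mem_nhds hz)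
  have hU1 : ∀ᶠ x in 𝓝 z, q m 0 x < q m 0 z + 1 := by
    apply hc0.eventually_lt continuousAt_const
    linarith
  obtain ⟨J, hJ⟩ := exists_nat_ge (q m 0 z + 1)
  have hne : (Finset.range (J + 1)).Nonempty := ⟨0, by simp⟩
  have hcs : ContinuousOn (fun x => (Finset.range (J + 1)).sup' hne fun j => -q m j x - j)
      (ball (0 : Cn (m + 2)) 1) := by
    apply ContinuousOn.finset_sup'_apply
    intro j _
    exact ((continuousOn_q m j).neg).sub continuousOn_const
  have hcs' := hcs.continuousAt (isOpen_ball.mem_nhds hz)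
  refine (hcs'.congr ?_).continuousWithinAt
  filter_upwards [hU1, isOpen_ball.mem_nhds hz] with x hx1 hx2
  have hx3 : ‖x‖ < 1 := by simpa using hx2
  apply le_antisymm
  · apply Finset.sup'_le
    intro j _
    exact le_phi m j hx3
  · apply ciSup_le
    intro j
    rcases le_or_gt j J with hj | hj
    · exact Finset.le_sup' (fun j : ℕ => -q m j x - j) (Finset.mem_range.2 (by omega))
    · have h1 := q_pos m j hx3
      have h2 : (J : ℝ) ≤ j := by exact_mod_cast hj.le
      have h3 := Finset.le_sup' (fun j : ℕ => -q m j x - j) (Finset.mem_range.2 (by omega : 0 < J + 1))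
      refine le_trans ?_ h3
      simp only [Nat.cast_zero, sub_zero]
      linarith

theorem norm_disc {n : ℕ} {a b : Cn n} (h : ∀ t : ℂ, ‖t‖ ≤ 1 → a + t • b ∈ ball (0 : Cn n) 1) :
    ∀ t : ℂ, ‖t‖ ≤ 1 → ‖a + t • b‖ < 1 := fun t ht => by simpa using h t ht

theorem isPSH_phi : IsPSH (ball 0 1) (fun z => (phi m z : EReal)) := by
  apply isPSH_of_continuousOn (continuousOn_phi m)
  intro a b hab
  have hab' := norm_disc hab
  have hcomp : ∀ {f : Cn (m + 2) → ℝ}, ContinuousOn f (ball 0 1) →
      ContinuousOn (fun t : ℂ => f (a + t • b)) (sphere 0 1) := by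
    intro f hf
    refine hf.comp (continuous_disc a b).continuousOn ?_
    intro t ht
    have ht' : ‖t‖ = 1 := by simpa using ht
    exact hab t ht'.le
  apply ciSup_le
  intro j
  have h1 : Real.circleAverage (fun t => -q m j (a + t • b) - j) 0 1 = -q m j a - j := by
    rw [Real.circleAverage_fun_sub]
    · have e1 : Real.circleAverage (fun t => -q m j (a + t • b)) 0 1
          = -Real.circleAverage (fun t => q m j (a + t • b)) 0 1 := by
        have := Real.circleAverage_fun_smul (a := (-1 : ℝ)) (f := fun t => q m j (a + t • b))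
          (c := 0) (R := 1)
        simpa using this
      rw [e1, circleAverage_q m j hab', Real.circleAverage_const]
    · exact circleIntegrable_of_continuousOn (hcomp (continuousOn_q m j)).neg
    · exact circleIntegrable_of_continuousOn continuousOn_const
  rw [← h1]
  apply Real.circleAverage_mono
  · exact circleIntegrable_of_continuousOn
      ((hcomp (continuousOn_q m j)).neg.sub continuousOn_const)
  · exact circleIntegrable_of_continuousOn (hcomp (continuousOn_phi m))
  · intro t ht
    have ht' : ‖t‖ = 1 := by simpa using ht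
    exact le_phi m j (hab' t ht'.le)

theorem zero_mem_ball {n : ℕ} : (0 : Cn n) ∈ ball (0 : Cn n) 1 := by simp

theorem isPSHNeg_phi : IsPSHNeg (ball 0 1) (fun z => (phi m z : EReal)) := by
  refine ⟨isPSH_phi m, fun z hz => ?_, 0, zero_mem_ball, EReal.coe_ne_bot _⟩
  exact EReal.coe_le_coe_iff.2 (phi_nonpos m (by simpa using hz))

theorem isPSHNeg_neg_q (j : ℕ) : IsPSHNeg (ball 0 1) (fun z => ((-q m j z : ℝ) : EReal)) := by
  refine ⟨?_, fun z hz => ?_, 0, zero_mem_ball, EReal.coe_ne_bot _⟩
  · apply isPSH_of_continuousOn (continuousOn_q m j).neg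
    intro a b hab
    have e1 : Real.circleAverage (fun t => -q m j (a + t • b)) 0 1
        = -Real.circleAverage (fun t => q m j (a + t • b)) 0 1 := by
      have := Real.circleAverage_fun_smul (a := (-1 : ℝ)) (f := fun t => q m j (a + t • b))
        (c := 0) (R := 1)
      simpa using this
    change -q m j a ≤ Real.circleAverage (fun t => -q m j (a + t • b)) 0 1
    rw [e1, circleAverage_q m j (norm_disc hab)]
  · have := q_pos m j (z := z) (by simpa using hz)
    have h : -q m j z ≤ 0 := by linarith
    exact EReal.coe_le_coe_iff.2 h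

theorem neg_q_mem (j : ℕ) : (fun z => ((-q m j z : ℝ) : EReal)) ∈
    minorants (ball 0 1) (fun z => (phi m z : EReal)) := by
  refine ⟨isPSHNeg_neg_q m j, (j : ℝ), fun z hz => ?_⟩
  have := le_phi m j (z := z) (by simpa using hz)
  have h : -q m j z ≤ phi m z + j := by linarith
  exact EReal.coe_le_coe_iff.2 h

theorem isPSHNeg_zero {n : ℕ} : IsPSHNeg (ball (0 : Cn n) 1) (fun _ => (0 : EReal)) := by
  refine ⟨?_, fun z hz => le_rfl, 0, zero_mem_ball, by simp⟩
  have := isPSH_of_continuousOn (D := ball (0 : Cn n) 1) (f := fun _ => (0 : ℝ)) continuousOn_const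
    (fun a b _ => by rw [Real.circleAverage_const])
  simpa using this

/-- The residual function of `φ` is bounded below by `-1`. -/
theorem residual_ge {z : Cn (m + 2)} (hz : z ∈ ball (0 : Cn (m + 2)) 1) :
    ((-1 : ℝ) : EReal) ≤ residual (ball 0 1) (fun z => (phi m z : EReal)) z := by
  unfold residual
  refine Filter.le_limsup_of_frequently_le (Filter.Eventually.frequently ?_) (by isBoundedDefault)
  filter_upwards [isOpen_ball.mem_nhds hz] with x hx
  have h1 : Tendsto (fun j => ((-q m j x : ℝ) : EReal)) atTop (𝓝 ((-1 : ℝ) : EReal)) :=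
    (continuous_coe_real_ereal.tendsto _).comp (q_tendsto m x).neg
  refine le_of_tendsto h1 (Filter.Eventually.of_forall fun j => ?_)
  exact le_iSup₂ (f := fun v (_ : v ∈ minorants (ball 0 1) (fun z => (phi m z : EReal))) => v x)
    _ (neg_q_mem m j)

/-- If `ψ` is bounded below on the ball then its residual function vanishes on the ball. -/
theorem residual_eq_zero {n : ℕ} {ψ : Cn n → EReal}
    (hψ : ∀ z ∈ ball (0 : Cn n) 1, ((-1 : ℝ) : EReal) ≤ ψ z) {z : Cn n} (hz : z ∈ ball (0 : Cn n) 1) :
    residual (ball 0 1) ψ z = 0 := by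
  unfold residual
  apply le_antisymm
  · apply Filter.limsup_le_of_le
    · isBoundedDefault
    filter_upwards [isOpen_ball.mem_nhds hz] with x hx
    exact iSup₂_le fun v hv => hv.1.2.1 x hx
  · apply Filter.le_limsup_of_frequently_le
    · apply Filter.Eventually.frequently
      filter_upwards with x
      have h0 : (fun _ => (0 : EReal)) ∈ minorants (ball (0 : Cn n) 1) ψ := by
        refine ⟨isPSHNeg_zero, 1, fun y hy => ?_⟩
        have h1 := hψ y hy
        calc (0 : EReal) = ((-1 : ℝ) : EReal) + ((1 : ℝ) : EReal) := by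
              rw [← EReal.coe_add]; norm_num
          _ ≤ ψ y + ((1 : ℝ) : EReal) := add_le_add_left h1 _
      exact le_iSup₂ (f := fun v (_ : v ∈ minorants (ball (0 : Cn n) 1) ψ) => v x) _ h0
    · isBoundedDefault

end Pool.Agent.Lib.MP_fcdc87_an
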