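import Pool.Agent.Lib.MP_fcdc87_an.Phi

/-!
# Upper bound for the minorants of `φ + C` near the origin
-/

set_option autoImplicit false

open Set Metric Filter Topology Complex

namespace Pool.Agent.Lib.MP_fcdc87_an

variable (m : ℕ)

/-- Replace the coordinate `i` of `z` by `t * c`. -/
noncomputable def repl (z : Cn (m + 2)) (i : Fin (m + 2)) (c t : ℂ) : Cn (m + 2) :=
  (z - PiLp.single 2 i (z i)) + t • PiLp.single 2 i c

theorem repl_apply (z : Cn (m + 2)) (i : Fin (m + 2)) (c t : ℂ) (j : Fin (m + 2)) :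
    repl m z i c t j = if j = i then t * c else z j := by
  unfold repl
  simp only [PiLp.add_apply, PiLp.sub_apply, PiLp.smul_apply, smul_eq_mul, PiLp.single_apply]
  split_ifs with h
  · subst h; ring
  · ring

theorem repl_self (z : Cn (m + 2)) (i : Fin (m + 2)) {c t : ℂ} (h : t * c = z i) :
    repl m z i c t = z := by
  ext j
  rw [repl_apply]
  split_ifs with hj
  · subst hj; exact h
  · rfl

/-- A point whose coordinates satisfy `|z_j|² ≤ τ_j` for `j ≠ 1` and `|z_1|² ≤ s < τ_1` is in the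
ball. -/
theorem norm_lt_one_of (K : ℕ) {s : ℝ} (hs : s < tau m K 1) {z : Cn (m + 2)}
    (h : ∀ j, ‖z j‖ ^ 2 ≤ if j = 1 then s else tau m K j) : ‖z‖ < 1 := by
  have h1 : ‖z‖ ^ 2 < 1 := by
    rw [norm_sq_eq]
    calc ∑ j, ‖z j‖ ^ 2 ≤ ∑ j, (if j = 1 then s else tau m K j) := Finset.sum_le_sum fun j _ => h j
      _ < ∑ j, tau m K j := by
          apply Finset.sum_lt_sum
          · intro j _
            split_ifs with hj
            · subst hj; exact hs.le
            · exact le_rfl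
          · exact ⟨1, Finset.mem_univ 1, by simpa using hs⟩
      _ = 1 := sum_tau m K
  have := norm_nonneg z
  nlinarith

/-- Bound for `φ` at points of the distinguished torus. -/
theorem phi_le (K : ℕ) {η : ℝ} (hη : 0 < η) (hK : 1 / η ≤ (K : ℝ) + 1) {z : Cn (m + 2)}
    (hz : ‖z‖ < 1) (hz0 : ‖z 0‖ ^ 2 = tau m K 0) (hzeta : ‖zeta m K z‖ ≤ 1 - η) :
    phi m z ≤ -((1 / (1 - zeta m K z)).re - 1 / 8) := by
  have hsm : ∀ K', K' ≠ K → ‖hh m K' z‖ ≤ (1 / 2 : ℝ) ^ (K' + 4) := by
    intro K' hK'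
    apply norm_hh_le m K' (norm_zeta_small m K' hz.le (Or.inl ?_))
    rw [hz0]
    have h1 := eps_spec m K' K (Ne.symm hK')
    have h2 := eps_pos m K'
    linarith
  apply ciSup_le
  intro j
  have hj0 : (0 : ℝ) ≤ j := Nat.cast_nonneg j
  rcases le_or_gt j K with hj | hj
  · have h1 := re_HS_ge m j K hz hsm hj
    rw [hh_eq m K hz, sub_re, one_re] at h1
    unfold q
    linarith
  · have h1 := q_pos m j hz
    have h2 : (K : ℝ) + 1 ≤ j := by exact_mod_cast hj
    have h3 := re_inv_le hη hzeta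
    linarith

/-- Existence of the radius with prescribed modulus of `ζ_K`. -/
theorem exists_radius (K : ℕ) {η : ℝ} (hη : 0 < η) (hη1 : η ≤ 1 / 2) :
    ∃ r : ℝ, 0 < r ∧ r ^ 2 < tau m K 1 ∧ tau m K 1 / 2 ≤ r ^ 2 ∧
      ((r ^ 2 / tau m K 1) ^ ex m K 1) ^ pw m K = 1 - η := by
  have hτ := tau_pos m K 1
  set n : ℕ := ex m K 1 * pw m K with hn
  have hn0 : n ≠ 0 := Nat.mul_ne_zero (ex_pos m K 1).ne' (pw_ne_zero m K)
  set e : ℝ := (1 - η) ^ ((n : ℝ)⁻¹) with he
  have he0 : 0 < e := Real.rpow_pos_of_pos (by linarith) _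
  have hen : e ^ n = 1 - η := Real.rpow_inv_natCast_pow (by linarith) hn0
  have he1 : e < 1 := by
    by_contra h
    push Not at h
    have := one_le_pow₀ (n := n) h
    linarith
  have he2 : 1 - η ≤ e := by
    rw [← hen]
    calc e ^ n ≤ e ^ 1 := pow_le_pow_of_le_one he0.le he1.le (Nat.one_le_iff_ne_zero.2 hn0)
      _ = e := pow_one e
  refine ⟨Real.sqrt (tau m K 1 * e), Real.sqrt_pos.2 (mul_pos hτ he0), ?_, ?_, ?_⟩
  · rw [Real.sq_sqrt (mul_pos hτ he0).le]
    nlinarith
  · rw [Real.sq_sqrt (mul_pos hτ he0).le]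
    nlinarith
  · rw [Real.sq_sqrt (mul_pos hτ he0).le, ← pow_mul, ← hn]
    have : tau m K 1 * e / tau m K 1 = e := by field_simp
    rw [this, hen]

/-- The function `ζ_K` on a fibre disc. -/
theorem zeta_repl (K : ℕ) (z : Cn (m + 2)) (r : ℝ) :
    ∃ κ : ℂ, (∀ t : ℂ, zeta m K (repl m z 1 r t) = κ * t ^ (2 * ex m K 1 * pw m K)) ∧
      ((∀ i, i ≠ 1 → ‖z i‖ ^ 2 = tau m K i) →
        ‖κ‖ = ((r ^ 2 / tau m K 1) ^ ex m K 1) ^ pw m K) := by
  set A : ℂ := ∏ i ∈ Finset.univ.erase (1 : Fin (m + 2)), ((z i) ^ 2 / (tau m K i : ℂ)) ^ ex m K i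
    with hA
  refine ⟨(((r : ℂ) ^ 2 / (tau m K 1 : ℂ)) ^ ex m K 1 * A) ^ pw m K, fun t => ?_, fun hz => ?_⟩
  · unfold zeta
    rw [← Finset.mul_prod_erase Finset.univ _ (Finset.mem_univ (1 : Fin (m + 2)))]
    have h1 : ∏ i ∈ Finset.univ.erase (1 : Fin (m + 2)),
        ((repl m z 1 r t i) ^ 2 / (tau m K i : ℂ)) ^ ex m K i = A := by
      rw [hA]
      apply Finset.prod_congr rfl
      intro i hi
      rw [repl_apply, if_neg (Finset.ne_of_mem_erase hi)]
    rw [h1, repl_apply, if_pos rfl]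
    have h2 : ((t * (r : ℂ)) ^ 2 / (tau m K 1 : ℂ)) ^ ex m K 1
        = ((r : ℂ) ^ 2 / (tau m K 1 : ℂ)) ^ ex m K 1 * t ^ (2 * ex m K 1) := by
      rw [mul_pow, pow_mul, ← mul_pow]
      ring
    rw [h2]
    rw [pow_mul t (2 * ex m K 1) (pw m K), ← mul_pow]
    congr 1
    ring
  · have hA1 : ‖A‖ = 1 := by
      rw [hA, norm_prod]
      apply Finset.prod_eq_one
      intro i hi
      rw [norm_pow, norm_div, norm_pow, Complex.norm_real, Real.norm_of_nonneg (tau_pos m K i).le,
        hz i (Finset.ne_of_mem_erase hi), div_self (tau_pos m K i).ne', one_pow]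
    rw [norm_pow, norm_mul, hA1, mul_one, norm_pow, norm_div, norm_pow, Complex.norm_real,
      Complex.norm_real, Real.norm_of_nonneg (tau_pos m K 1).le, Real.norm_eq_abs, sq_abs]

/-- The size of the neighbourhood of the origin. -/
noncomputable def rad : ℝ := 1 / (4 * ((m : ℝ) + 2))

theorem rad_pos : 0 < rad m := by unfold rad; positivity

theorem rad_sq_le (K : ℕ) (i : Fin (m + 2)) : rad m ^ 2 ≤ tau m K i / 8 := by
  have h1 := tau_ge m K i
  have hm : (0 : ℝ) ≤ m := Nat.cast_nonneg m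
  have h2 : rad m ^ 2 ≤ (1 / (2 * ((m : ℝ) + 2))) / 8 := by
    unfold rad
    rw [div_pow, one_pow, div_div, div_le_div_iff₀ (by positivity) (by positivity)]
    nlinarith
  linarith

/-- Step A: the bound on the torus in the variables `≠ 1`. -/
theorem stepA {v : Cn (m + 2) → EReal} (hv : IsPSHNeg (ball 0 1) v) {C : ℝ}
    (hC : ∀ z ∈ ball (0 : Cn (m + 2)) 1, v z ≤ (phi m z : EReal) + (C : EReal)) :
    ∃ K : ℕ, ∀ u : Cn (m + 2), (∀ i, i ≠ 1 → ‖u i‖ ^ 2 = tau m K i) → ‖u 1‖ ≤ rad m →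
      v u ≤ ((-(1 / (24 * Real.pi)) : ℝ) : EReal) := by
  set C' : ℝ := max C 0 + 1 with hC'
  have hC'1 : 1 ≤ C' := by rw [hC']; have := le_max_right C 0; linarith
  have hC'2 : C + 1 / 8 ≤ C' := by rw [hC']; have := le_max_left C 0; linarith
  set η : ℝ := 1 / (8 * C') with hη
  have hη0 : 0 < η := by rw [hη]; positivity
  have hη1 : η ≤ 1 / 8 := by
    rw [hη]; apply one_div_le_one_div_of_le (by norm_num); linarith
  have hCη : 8 * η * C' ≤ 1 := by
    rw [hη]; apply le_of_eq; field_simp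
  obtain ⟨K, hK⟩ := exists_nat_ge (1 / η)
  refine ⟨K, fun u hu hu1 => ?_⟩
  obtain ⟨r, hr0, hr1, hr2, hr3⟩ := exists_radius m K hη0 (by linarith)
  obtain ⟨κ, hκ, hκn⟩ := zeta_repl m K u r
  have hκn' : ‖κ‖ = 1 - η := by rw [hκn hu, hr3]
  set M : ℕ := 2 * ex m K 1 * pw m K with hM
  have hM0 : M ≠ 0 := by
    have h1 := (ex_pos m K 1).ne'
    have h2 := pw_ne_zero m K
    rw [hM]; positivity
  -- the fibre disc lies in the ball
  have hnorm : ∀ t : ℂ, ‖t‖ ≤ 1 → ‖repl m u 1 r t‖ < 1 := by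
    intro t ht
    apply norm_lt_one_of m K hr1
    intro j
    rw [repl_apply]
    split_ifs with hj
    · rw [norm_mul, Complex.norm_real, Real.norm_of_nonneg hr0.le, mul_pow]
      have : ‖t‖ ^ 2 ≤ 1 := pow_le_one₀ (norm_nonneg t) ht
      nlinarith [sq_nonneg r]
    · exact (hu j hj).le
  have hdisc : ∀ t : ℂ, ‖t‖ ≤ 1 →
      (u - PiLp.single 2 1 (u 1)) + t • (PiLp.single 2 1 (r : ℂ) : Cn (m + 2)) ∈
        ball (0 : Cn (m + 2)) 1 := by
    intro t ht
    have := hnorm t ht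
    unfold repl at this
    simpa using this
  have hw := hv.1.discSub hdisc
  have hw' : DiscSub fun t : ℂ => v (repl m u 1 r t) := hw
  have hb : ∀ t ∈ sphere (0 : ℂ) 1,
      v (repl m u 1 r t) ≤ ((-(trunc C' (κ * t ^ M)) : ℝ) : EReal) := by
    intro t ht
    have ht1 : ‖t‖ = 1 := by simpa using ht
    have hn := hnorm t ht1.le
    have hmem : repl m u 1 r t ∈ ball (0 : Cn (m + 2)) 1 := by simpa using hn
    have hz : zeta m K (repl m u 1 r t) = κ * t ^ M := hκ t
    have hzn : ‖zeta m K (repl m u 1 r t)‖ ≤ 1 - η := by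
      rw [hz, norm_mul, norm_pow, ht1, one_pow, mul_one, hκn']
    have h0 : ‖repl m u 1 r t 0‖ ^ 2 = tau m K 0 := by
      rw [repl_apply, if_neg (by simp)]
      exact hu 0 (by simp)
    have h1 := phi_le m K hη0 (by linarith) hn h0 hzn
    rw [hz] at h1
    have h2 := hC _ hmem
    have h3 := hv.2.1 _ hmem
    unfold trunc
    rcases max_cases (0 : ℝ) ((1 / (1 - κ * t ^ M)).re - C') with h4 | h4
    · rw [h4.1, neg_zero]
      exact_mod_cast h3
    · rw [h4.1]
      refine h2.trans ?_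
      rw [← EReal.coe_add]
      apply EReal.coe_le_coe_iff.2
      linarith
  -- the point in the fibre disc
  set s : ℂ := u 1 / r with hs
  have hrad := rad_sq_le m K 1
  have hτ := tau_pos m K 1
  have hs1 : ‖s‖ ≤ 1 / 2 := by
    rw [hs, norm_div, Complex.norm_real, Real.norm_of_nonneg hr0.le, div_le_iff₀ hr0]
    have h1 : rad m ≤ 1 / 2 * r := by
      apply le_of_sq_le_sq _ (by positivity)
      rw [mul_pow]
      nlinarith
    linarith
  have hsr : s * r = u 1 := by
    rw [hs]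
    have : (r : ℂ) ≠ 0 := by exact_mod_cast hr0.ne'
    field_simp
  have hψc : ContinuousOn (fun t : ℂ => trunc C' (κ * t ^ M)) (sphere 0 1) := by
    apply (continuousOn_trunc C').comp (by fun_prop)
    intro t ht
    have ht1 : ‖t‖ = 1 := by simpa using ht
    rw [mem_ball_zero_iff, norm_mul, norm_pow, ht1, one_pow, mul_one, hκn']
    linarith
  have hH := hw'.harnack hψc (fun t _ => trunc_nonneg _ _) hb (a := s) (by linarith)
  have hav := average_trunc (C := C') hη0 (by linarith) hCη hκn' hM0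
  rw [repl_self m u 1 hsr] at hH
  refine hH.trans ?_
  apply EReal.coe_le_coe_iff.2
  apply neg_le_neg
  have hpi := Real.pi_pos
  have h3 : 1 / 3 ≤ (1 - ‖s‖) / (1 + ‖s‖) := by
    rw [div_le_div_iff₀ (by norm_num) (by have := norm_nonneg s; linarith)]
    linarith
  calc 1 / (24 * Real.pi) = 1 / 3 * (1 / (8 * Real.pi)) := by field_simp; norm_num
    _ ≤ (1 - ‖s‖) / (1 + ‖s‖) * Real.circleAverage (fun t => trunc C' (κ * t ^ M)) 0 1 := by
        apply mul_le_mul h3 hav (by positivity)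
        exact (by positivity : (0:ℝ) ≤ 1 / 3).trans h3

/-- Step B: spreading the bound to the polydisc with the maximum principle. -/
theorem stepB {v : Cn (m + 2) → EReal} (hv : IsPSHNeg (ball 0 1) v) {c : ℝ} {K : ℕ}
    (h : ∀ u : Cn (m + 2), (∀ i, i ≠ 1 → ‖u i‖ ^ 2 = tau m K i) → ‖u 1‖ ≤ rad m →
      v u ≤ (c : EReal)) (J : Finset (Fin (m + 2))) :
    ∀ u : Cn (m + 2), (∀ i ∈ J, i ≠ 1 → ‖u i‖ ^ 2 ≤ tau m K i) →
      (∀ i, i ∉ J → i ≠ 1 → ‖u i‖ ^ 2 = tau m K i) → ‖u 1‖ ≤ rad m → v u ≤ (c : EReal) := by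
  induction J using Finset.induction_on with
  | empty => intro u _ h1 h2; exact h u (fun i hi => h1 i (by simp) hi) h2
  | insert i J hiJ IH =>
    intro u h1 h2 h3
    by_cases hi1 : i = 1
    · apply IH u
      · intro k hk hk1; exact h1 k (Finset.mem_insert_of_mem hk) hk1
      · intro k hk hk1
        apply h2 k _ hk1
        rw [Finset.mem_insert, not_or]
        exact ⟨by rw [hi1]; exact hk1, hk⟩
      · exact h3
    have hτ := tau_pos m K i
    have hrad := rad_sq_le m K 1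
    have hτ1 := tau_pos m K 1
    set ρ : ℝ := Real.sqrt (tau m K i) with hρ
    have hρ0 : 0 < ρ := Real.sqrt_pos.2 hτ
    have hρ2 : ρ ^ 2 = tau m K i := Real.sq_sqrt hτ.le
    have hcoord : ∀ t : ℂ, ‖t‖ ≤ 1 → ∀ k, ‖repl m u i ρ t k‖ ^ 2
        ≤ if k = 1 then rad m ^ 2 else tau m K k := by
      intro t ht k
      rw [repl_apply]
      by_cases hk : k = i
      · rw [if_pos hk, if_neg (by rw [hk]; exact hi1), norm_mul, Complex.norm_real,
          Real.norm_of_nonneg hρ0.le, mul_pow, hρ2, hk]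
        have : ‖t‖ ^ 2 ≤ 1 := pow_le_one₀ (norm_nonneg t) ht
        nlinarith
      · rw [if_neg hk]
        split_ifs with hk1
        · rw [hk1]
          have := norm_nonneg (u 1)
          nlinarith
        · by_cases hkJ : k ∈ insert i J
          · exact h1 k hkJ hk1
          · exact (h2 k hkJ hk1).le
    have hnorm : ∀ t : ℂ, ‖t‖ ≤ 1 → ‖repl m u i ρ t‖ < 1 := fun t ht =>
      norm_lt_one_of m K (by linarith) (hcoord t ht)
    have hdisc : ∀ t : ℂ, ‖t‖ ≤ 1 →
        (u - PiLp.single 2 i (u i)) + t • (PiLp.single 2 i (ρ : ℂ) : Cn (m + 2)) ∈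
          ball (0 : Cn (m + 2)) 1 := by
      intro t ht
      have := hnorm t ht
      unfold repl at this
      simpa using this
    have hw' : DiscSub fun t : ℂ => v (repl m u i ρ t) := hv.1.discSub hdisc
    have hb : ∀ t ∈ sphere (0 : ℂ) 1, v (repl m u i ρ t) ≤ ((((c : ℂ)).re : ℝ) : EReal) := by
      intro t ht
      have ht1 : ‖t‖ = 1 := by simpa using ht
      rw [ofReal_re]
      apply IH
      · intro k hk hk1
        have := hcoord t ht1.le k
        rwa [if_neg hk1] at this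
      · intro k hk hk1
        rw [repl_apply]
        by_cases hki : k = i
        · rw [if_pos hki, norm_mul, Complex.norm_real, Real.norm_of_nonneg hρ0.le, mul_pow, hρ2,
            ht1, one_pow, one_mul, hki]
        · rw [if_neg hki]
          apply h2 k _ hk1
          rw [Finset.mem_insert, not_or]
          exact ⟨hki, hk⟩
      · rw [repl_apply, if_neg (Ne.symm hi1)]
        exact h3
    set s : ℂ := u i / ρ with hs
    have hsr : s * ρ = u i := by
      rw [hs]
      have : (ρ : ℂ) ≠ 0 := by exact_mod_cast hρ0.ne'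
      field_simp
    have hs1 : ‖s‖ ≤ 1 := by
      rw [hs, norm_div, Complex.norm_real, Real.norm_of_nonneg hρ0.le, div_le_iff₀ hρ0, one_mul]
      apply le_of_sq_le_sq _ hρ0.le
      rw [hρ2]
      exact h1 i (Finset.mem_insert_self i J) hi1
    have hmax := hw'.le_re (p := fun _ => (c : ℂ)) (by fun_prop) hb s (by simpa using hs1)
    rw [repl_self m u i hsr] at hmax
    simpa using hmax

/-- The bound for all minorants near the origin. -/
theorem minorant_le {v : Cn (m + 2) → EReal}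
    (hv : v ∈ minorants (ball 0 1) (fun z => (phi m z : EReal))) {z : Cn (m + 2)}
    (hz : ‖z‖ ≤ rad m) : v z ≤ ((-(1 / (24 * Real.pi)) : ℝ) : EReal) := by
  obtain ⟨hv1, C, hC⟩ := hv
  obtain ⟨K, hK⟩ := stepA m hv1 hC
  have hco : ∀ i, ‖z i‖ ≤ rad m := fun i => (PiLp.norm_apply_le z i).trans hz
  apply stepB m hv1 hK Finset.univ z
  · intro i _ _
    have h1 := rad_sq_le m K i
    have h2 := tau_pos m K i
    have h3 := hco i
    have h4 := norm_nonneg (z i)
    nlinarith
  · intro i hi; exact absurd (Finset.mem_univ i) hi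
  · exact hco 1

theorem residual_le {z : Cn (m + 2)} (hz : ‖z‖ < rad m) :
    residual (ball 0 1) (fun z => (phi m z : EReal)) z ≤ ((-(1 / (24 * Real.pi)) : ℝ) : EReal) := by
  unfold residual
  apply Filter.limsup_le_of_le
  · isBoundedDefault
  have hmem : ball (0 : Cn (m + 2)) (rad m) ∈ 𝓝 z := isOpen_ball.mem_nhds (by simpa using hz)
  filter_upwards [hmem] with x hx
  have hx' : ‖x‖ < rad m := by simpa using hx
  exact iSup₂_le fun v hv => minorant_le m hv hx'.le

end Pool.Agent.Lib.MP_fcdc87_an
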