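import Pool.Agent.Lib.MP_fcdc87_an.Mono
import Pool.Agent.Lib.MP_fcdc87_an.Defs

/-!
# The pluriharmonic functions `q_j`
-/

set_option autoImplicit false

open Set Metric Filter Topology Complex

namespace Pool.Agent.Lib.MP_fcdc87_an

variable (m : ℕ)

/-- Powers of normalized monomials. -/
noncomputable def zeta (K : ℕ) (z : Cn (m + 2)) : ℂ :=
  (∏ i, ((z i) ^ 2 / (tau m K i : ℂ)) ^ ex m K i) ^ pw m K

theorem norm_sq_eq (z : Cn (m + 2)) : ‖z‖ ^ 2 = ∑ i, ‖z i‖ ^ 2 := EuclideanSpace.norm_sq_eq z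

theorem norm_zeta (K : ℕ) (z : Cn (m + 2)) :
    ‖zeta m K z‖ = F m K (fun i => ‖z i‖ ^ 2) ^ pw m K := by
  unfold zeta F
  rw [norm_pow, norm_prod]
  congr 1
  apply Finset.prod_congr rfl
  intro i _
  rw [norm_pow, norm_div, norm_pow, Complex.norm_real, Real.norm_of_nonneg (tau_pos m K i).le]

theorem continuous_zeta (K : ℕ) : Continuous (zeta m K) := by
  unfold zeta
  fun_prop

theorem differentiable_zeta (K : ℕ) (a b : Cn (m + 2)) :
    Differentiable ℂ fun t : ℂ => zeta m K (a + t • b) := by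
  unfold zeta
  simp only [PiLp.add_apply, PiLp.smul_apply, smul_eq_mul]
  fun_prop

theorem norm_zeta_lt_one (K : ℕ) {z : Cn (m + 2)} (hz : ‖z‖ < 1) : ‖zeta m K z‖ < 1 := by
  rw [norm_zeta]
  have h1 : ‖z‖ ^ 2 < 1 := by
    have := norm_nonneg z
    nlinarith
  rw [norm_sq_eq] at h1
  have h2 : F m K (fun i => ‖z i‖ ^ 2) < 1 :=
    F_lt_one m K (fun i => by positivity) h1.le (Or.inr h1)
  exact pow_lt_one₀ (F_nonneg m K (fun i => by positivity)) h2 (pw_ne_zero m K)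

theorem norm_zeta_small (K : ℕ) {z : Cn (m + 2)} (hz : ‖z‖ ≤ 1)
    (h : eps m K ≤ |‖z 0‖ ^ 2 - tau m K 0| ∨ ‖z‖ ^ 2 ≤ 1 - 1 / ((K : ℝ) + 2)) :
    ‖zeta m K z‖ ≤ (1 / 2 : ℝ) ^ (K + 5) := by
  rw [norm_zeta]
  apply pw_spec
  refine ⟨fun i => by positivity, ?_, ?_⟩
  · rw [← norm_sq_eq]
    have := norm_nonneg z
    nlinarith
  · rw [norm_sq_eq] at h
    exact h

/-- The basic holomorphic functions. -/
noncomputable def hh (K : ℕ) (z : Cn (m + 2)) : ℂ := zeta m K z / (1 - zeta m K z)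

theorem one_sub_ne {ζ : ℂ} (h : ‖ζ‖ < 1) : 1 - ζ ≠ 0 := by
  intro h0
  have : ζ = 1 := by linear_combination -h0
  rw [this, norm_one] at h
  exact lt_irrefl _ h

theorem hh_eq (K : ℕ) {z : Cn (m + 2)} (hz : ‖z‖ < 1) :
    hh m K z = 1 / (1 - zeta m K z) - 1 := by
  unfold hh
  have := one_sub_ne (norm_zeta_lt_one m K hz)
  field_simp
  ring

theorem re_inv_ge {ζ : ℂ} (h : ‖ζ‖ < 1) : 1 / 2 ≤ (1 / (1 - ζ)).re := by
  have h0 : 1 - ζ ≠ 0 := one_sub_ne h
  have h1 : 0 < normSq (1 - ζ) := normSq_pos.2 h0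
  rw [one_div (1 - ζ), inv_re, le_div_iff₀ h1]
  have h2 : normSq ζ < 1 := by
    rw [normSq_eq_norm_sq]
    have := norm_nonneg ζ
    nlinarith
  rw [normSq_apply] at h2 ⊢
  simp only [sub_re, sub_im, one_re, one_im]
  nlinarith

theorem re_inv_le {ζ : ℂ} {η : ℝ} (hη : 0 < η) (h : ‖ζ‖ ≤ 1 - η) : (1 / (1 - ζ)).re ≤ 1 / η := by
  have h1 : η ≤ ‖1 - ζ‖ := by
    have := norm_sub_norm_le (1 : ℂ) ζ
    rw [norm_one] at this
    linarith
  calc (1 / (1 - ζ)).re ≤ ‖1 / (1 - ζ)‖ := re_le_norm _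
    _ = 1 / ‖1 - ζ‖ := by rw [norm_div, norm_one]
    _ ≤ 1 / η := one_div_le_one_div_of_le hη h1

theorem re_hh_ge (K : ℕ) {z : Cn (m + 2)} (hz : ‖z‖ < 1) : -(1 / 2) ≤ (hh m K z).re := by
  rw [hh_eq m K hz, sub_re, one_re]
  have := re_inv_ge (norm_zeta_lt_one m K hz)
  linarith

theorem norm_hh_le (K : ℕ) {z : Cn (m + 2)} (h : ‖zeta m K z‖ ≤ (1 / 2 : ℝ) ^ (K + 5)) :
    ‖hh m K z‖ ≤ (1 / 2 : ℝ) ^ (K + 4) := by
  have h1 : ‖zeta m K z‖ ≤ 1 / 2 := by
    refine h.trans ?_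
    calc (1 / 2 : ℝ) ^ (K + 5) ≤ (1 / 2 : ℝ) ^ 1 :=
          pow_le_pow_of_le_one (by norm_num) (by norm_num) (by omega)
      _ = 1 / 2 := by norm_num
  have h2 : 1 / 2 ≤ ‖1 - zeta m K z‖ := by
    have := norm_sub_norm_le (1 : ℂ) (zeta m K z)
    rw [norm_one] at this
    linarith
  unfold hh
  rw [norm_div, div_le_iff₀ (by linarith)]
  calc ‖zeta m K z‖ ≤ (1 / 2 : ℝ) ^ (K + 5) := h
    _ = (1 / 2 : ℝ) ^ (K + 4) * (1 / 2) := by ring
    _ ≤ (1 / 2 : ℝ) ^ (K + 4) * ‖1 - zeta m K z‖ := by gcongr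

theorem continuousOn_hh (K : ℕ) : ContinuousOn (hh m K) (ball 0 1) := by
  unfold hh
  apply ContinuousOn.div (continuous_zeta m K).continuousOn
    (continuous_const.sub (continuous_zeta m K)).continuousOn
  intro z hz
  exact one_sub_ne (norm_zeta_lt_one m K (by simpa using hz))

theorem differentiableAt_hh (K : ℕ) (a b : Cn (m + 2)) {t : ℂ} (ht : ‖a + t • b‖ < 1) :
    DifferentiableAt ℂ (fun t : ℂ => hh m K (a + t • b)) t := by
  unfold hh
  apply DifferentiableAt.div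
  · exact differentiable_zeta m K a b t
  · exact (differentiableAt_const _).sub (differentiable_zeta m K a b t)
  · exact one_sub_ne (norm_zeta_lt_one m K ht)

theorem exists_uniform {ρ : ℝ} (hρ : ρ < 1) :
    ∃ L : ℕ, ∀ K, L ≤ K → ∀ z : Cn (m + 2), ‖z‖ ≤ 1 → ‖z‖ ^ 2 ≤ ρ →
      ‖hh m K z‖ ≤ (1 / 2 : ℝ) ^ (K + 4) := by
  obtain ⟨L, hL⟩ := exists_nat_gt (1 / (1 - ρ))
  refine ⟨L, fun K hK z hz hz2 => norm_hh_le m K (norm_zeta_small m K hz (Or.inr ?_))⟩
  have h1 : 0 < 1 - ρ := by linarith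
  have h2 : 1 / (1 - ρ) < (K : ℝ) + 2 := by
    have : (L : ℝ) ≤ K := by exact_mod_cast hK
    linarith
  have h3 : 1 / ((K : ℝ) + 2) < 1 - ρ := by
    rw [div_lt_iff₀ (by positivity)]
    rw [div_lt_iff₀ h1] at h2
    linarith
  linarith

theorem exists_exceptional {z : Cn (m + 2)} (hz : ‖z‖ < 1) :
    ∃ K₀ : ℕ, ∀ K, K ≠ K₀ → ‖hh m K z‖ ≤ (1 / 2 : ℝ) ^ (K + 4) := by
  by_cases h : ∃ K₀, |‖z 0‖ ^ 2 - tau m K₀ 0| < eps m K₀
  · obtain ⟨K₀, hK₀⟩ := h
    refine ⟨K₀, fun K hK => norm_hh_le m K (norm_zeta_small m K hz.le (Or.inl ?_))⟩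
    by_contra hcon
    push Not at hcon
    exact hK (eq_of_slabs m hcon hK₀)
  · push Not at h
    exact ⟨0, fun K _ => norm_hh_le m K (norm_zeta_small m K hz.le (Or.inl (h K)))⟩

theorem summable_e : Summable fun K : ℕ => (1 / 2 : ℝ) ^ (K + 4) := by
  have := summable_geometric_two
  exact (summable_nat_add_iff (f := fun K : ℕ => (1 / 2 : ℝ) ^ K) 4).2 this

theorem tsum_e : ∑' K : ℕ, (1 / 2 : ℝ) ^ (K + 4) = 1 / 8 := by
  have : ∀ K : ℕ, (1 / 2 : ℝ) ^ (K + 4) = (1 / 2 : ℝ) ^ K * (1 / 16) := by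
    intro K; rw [pow_add]; norm_num
  simp_rw [this]
  rw [tsum_mul_right, tsum_geometric_two]
  norm_num

theorem summable_hh {z : Cn (m + 2)} (hz : ‖z‖ < 1) : Summable fun K => hh m K z := by
  obtain ⟨K₀, hK₀⟩ := exists_exceptional m hz
  apply Summable.of_norm_bounded_eventually_nat summable_e
  filter_upwards [eventually_gt_atTop K₀] with K hK
  exact hK₀ K hK.ne'

theorem summable_hh' (j : ℕ) {z : Cn (m + 2)} (hz : ‖z‖ < 1) : Summable fun K => hh m (K + j) z :=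
  (summable_nat_add_iff j).2 (summable_hh m hz)

/-- The holomorphic tail sums. -/
noncomputable def HS (j : ℕ) (z : Cn (m + 2)) : ℂ := ∑' K, hh m (K + j) z

/-- The positive pluriharmonic functions. -/
noncomputable def q (j : ℕ) (z : Cn (m + 2)) : ℝ := 1 + (HS m j z).re

theorem re_HS (j : ℕ) {z : Cn (m + 2)} (hz : ‖z‖ < 1) :
    (HS m j z).re = ∑' K, (hh m (K + j) z).re := by
  unfold HS
  exact (Complex.reCLM.map_tsum (summable_hh' m j hz))

/-- Lower bound for sums of the real parts, given lower bounds for each term. -/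
theorem re_HS_ge (j K₀ : ℕ) {z : Cn (m + 2)} (hz : ‖z‖ < 1)
    (h : ∀ K, K ≠ K₀ → ‖hh m K z‖ ≤ (1 / 2 : ℝ) ^ (K + 4)) (hj : j ≤ K₀) :
    (hh m K₀ z).re - 1 / 8 ≤ (HS m j z).re := by
  rw [re_HS m j hz]
  have hs : Summable fun K => (hh m (K + j) z).re :=
    (Complex.reCLM.summable (summable_hh' m j hz))
  have e1 : ∑' K : ℕ, ((if K = K₀ - j then (hh m K₀ z).re else 0) - (1 / 2 : ℝ) ^ (K + 4))
      = (hh m K₀ z).re - 1 / 8 := by
    rw [Summable.tsum_sub _ summable_e, tsum_ite_eq, tsum_e]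
    exact (hasSum_ite_eq (K₀ - j) _).summable
  rw [← e1]
  apply Summable.tsum_le_tsum _ _ hs
  · intro K
    by_cases hK : K = K₀ - j
    · have : K + j = K₀ := by omega
      rw [if_pos hK, this]
      have : (0 : ℝ) < (1 / 2 : ℝ) ^ (K + 4) := by positivity
      linarith
    · rw [if_neg hK]
      have h1 := h (K + j) (by omega)
      have h2 := (abs_le.1 (abs_re_le_norm (hh m (K + j) z))).1
      have h3 : (1 / 2 : ℝ) ^ (K + j + 4) ≤ (1 / 2 : ℝ) ^ (K + 4) :=
        pow_le_pow_of_le_one (by norm_num) (by norm_num) (by omega)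
      linarith
  · exact ((hasSum_ite_eq (K₀ - j) _).summable).sub summable_e

theorem re_HS_ge' (j K₀ : ℕ) {z : Cn (m + 2)} (hz : ‖z‖ < 1)
    (h : ∀ K, K ≠ K₀ → ‖hh m K z‖ ≤ (1 / 2 : ℝ) ^ (K + 4)) (hj : K₀ < j) :
    -(1 / 8) ≤ (HS m j z).re := by
  rw [re_HS m j hz]
  have hs : Summable fun K => (hh m (K + j) z).re :=
    (Complex.reCLM.summable (summable_hh' m j hz))
  have e1 : ∑' K : ℕ, (-((1 / 2 : ℝ) ^ (K + 4))) = -(1 / 8) := by
    rw [tsum_neg, tsum_e]
  rw [← e1]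
  apply Summable.tsum_le_tsum _ summable_e.neg hs
  intro K
  have h1 := h (K + j) (by omega)
  have h2 := (abs_le.1 (abs_re_le_norm (hh m (K + j) z))).1
  have h3 : (1 / 2 : ℝ) ^ (K + j + 4) ≤ (1 / 2 : ℝ) ^ (K + 4) :=
    pow_le_pow_of_le_one (by norm_num) (by norm_num) (by omega)
  linarith

theorem q_pos (j : ℕ) {z : Cn (m + 2)} (hz : ‖z‖ < 1) : 3 / 8 ≤ q m j z := by
  obtain ⟨K₀, hK₀⟩ := exists_exceptional m hz
  unfold q
  rcases le_or_gt j K₀ with hj | hj
  · have h1 := re_HS_ge m j K₀ hz hK₀ hj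
    have h2 := re_hh_ge m K₀ hz
    linarith
  · have h1 := re_HS_ge' m j K₀ hz hK₀ hj
    linarith

theorem q_tendsto (z : Cn (m + 2)) : Tendsto (fun j => q m j z) atTop (𝓝 1) := by
  have h1 : Tendsto (fun j => HS m j z) atTop (𝓝 0) := tendsto_sum_nat_add fun K => hh m K z
  have h2 : Tendsto (fun j => 1 + (HS m j z).re) atTop (𝓝 (1 + (0 : ℂ).re)) :=
    tendsto_const_nhds.add ((continuous_re.tendsto _).comp h1)
  simpa [q] using h2

theorem HS_split (j L : ℕ) {z : Cn (m + 2)} (hz : ‖z‖ < 1) :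
    HS m j z = (∑ K ∈ Finset.range L, hh m (K + j) z) + ∑' K, hh m (K + L + j) z := by
  unfold HS
  rw [(summable_hh' m j hz).sum_add_tsum_nat_add L]

theorem continuousOn_HS (j : ℕ) : ContinuousOn (HS m j) (ball 0 1) := by
  intro z hz
  have hz1 : ‖z‖ < 1 := by simpa using hz
  obtain ⟨ρ, h1, h2⟩ := exists_between hz1
  have hρ0 : 0 ≤ ρ := (norm_nonneg z).trans h1.le
  obtain ⟨L, hL⟩ := exists_uniform m (ρ := ρ ^ 2) (by nlinarith)
  have hmem : ball (0 : Cn (m + 2)) ρ ∈ 𝓝 z := isOpen_ball.mem_nhds (by simpa using h1)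
  have hsub : ball (0 : Cn (m + 2)) ρ ⊆ ball 0 1 := ball_subset_ball h2.le
  have hc : ContinuousOn (fun z => (∑ K ∈ Finset.range L, hh m (K + j) z)
      + ∑' K, hh m (K + L + j) z) (ball 0 ρ) := by
    apply ContinuousOn.add
    · apply continuousOn_finsetSum
      intro K _
      exact (continuousOn_hh m _).mono hsub
    · apply continuousOn_tsum (u := fun K : ℕ => (1 / 2 : ℝ) ^ (K + 4))
      · intro K
        exact (continuousOn_hh m _).mono hsub
      · exact summable_e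
      · intro K x hx
        have hx' : ‖x‖ < ρ := by simpa using hx
        refine (hL (K + L + j) (by omega) x (hx'.le.trans h2.le) ?_).trans ?_
        · have := norm_nonneg x
          nlinarith
        · exact pow_le_pow_of_le_one (by norm_num) (by norm_num) (by omega)
  have hc' : ContinuousAt (fun z => (∑ K ∈ Finset.range L, hh m (K + j) z)
      + ∑' K, hh m (K + L + j) z) z := hc.continuousAt hmem
  refine (hc'.congr ?_).continuousWithinAt
  filter_upwards [hmem] with x hx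
  have hx' : ‖x‖ < ρ := by simpa using hx
  exact (HS_split m j L (hx'.trans h2)).symm

theorem continuousOn_q (j : ℕ) : ContinuousOn (q m j) (ball 0 1) := by
  unfold q
  exact continuousOn_const.add (continuous_re.comp_continuousOn (continuousOn_HS m j))

theorem differentiableAt_HS (j : ℕ) (a b : Cn (m + 2)) {t : ℂ} (ht : ‖a + t • b‖ < 1) :
    DifferentiableAt ℂ (fun t : ℂ => HS m j (a + t • b)) t := by
  obtain ⟨ρ, h1, h2⟩ := exists_between ht
  have hρ0 : 0 ≤ ρ := (norm_nonneg _).trans h1.le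
  obtain ⟨L, hL⟩ := exists_uniform m (ρ := ρ ^ 2) (by nlinarith)
  let U : Set ℂ := {t | ‖a + t • b‖ < ρ}
  have hU : IsOpen U := isOpen_lt (by fun_prop) continuous_const
  have hd : DifferentiableOn ℂ (fun t : ℂ => (∑ K ∈ Finset.range L, hh m (K + j) (a + t • b))
      + ∑' K, hh m (K + L + j) (a + t • b)) U := by
    apply DifferentiableOn.add
    · apply DifferentiableOn.fun_sum
      intro K _ s hs
      exact (differentiableAt_hh m _ a b (lt_trans hs h2)).differentiableWithinAt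
    · apply Complex.differentiableOn_tsum_of_summable_norm
        (u := fun K : ℕ => (1 / 2 : ℝ) ^ (K + 4)) summable_e
      · intro K s hs
        exact (differentiableAt_hh m _ a b (lt_trans hs h2)).differentiableWithinAt
      · exact hU
      · intro K s hs
        have hs' : ‖a + s • b‖ < ρ := hs
        refine (hL (K + L + j) (by omega) _ (hs'.le.trans h2.le) ?_).trans ?_
        · have := norm_nonneg (a + s • b)
          nlinarith
        · exact pow_le_pow_of_le_one (by norm_num) (by norm_num) (by omega)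
  have hd' := hd.differentiableAt (hU.mem_nhds h1)
  refine hd'.congr_of_eventuallyEq ?_
  filter_upwards [hU.mem_nhds h1] with s hs
  exact HS_split m j L (lt_trans hs h2)

theorem circleAverage_q (j : ℕ) {a b : Cn (m + 2)} (h : ∀ t : ℂ, ‖t‖ ≤ 1 → ‖a + t • b‖ < 1) :
    Real.circleAverage (fun t => q m j (a + t • b)) 0 1 = q m j a := by
  have hd : DifferentiableOn ℂ (fun t : ℂ => 1 + HS m j (a + t • b)) (closure (ball 0 1)) := by
    rw [closure_ball _ one_ne_zero]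
    intro t ht
    have ht' : ‖t‖ ≤ 1 := by simpa using ht
    exact ((differentiableAt_const _).add
      (differentiableAt_HS m j a b (h t ht'))).differentiableWithinAt
  have hcl : DiffContOnCl ℂ (fun t : ℂ => 1 + HS m j (a + t • b)) (ball 0 |1|) := by
    rw [abs_one]; exact hd.diffContOnCl
  have h1 := hcl.circleAverage
  have h2 : Real.circleAverage (reCLM ∘ fun t : ℂ => 1 + HS m j (a + t • b)) 0 1
      = reCLM (Real.circleAverage (fun t : ℂ => 1 + HS m j (a + t • b)) 0 1) := by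
    apply reCLM.circleAverage_comp_comm
    apply ContinuousOn.circleIntegrable'
    rw [abs_one]
    refine hd.continuousOn.mono ?_
    rw [closure_ball _ one_ne_zero]
    exact sphere_subset_closedBall
  rw [h1] at h2
  have e1 : (fun t => q m j (a + t • b)) = (reCLM ∘ fun t : ℂ => 1 + HS m j (a + t • b)) := by
    funext t
    simp [q]
  rw [e1, h2]
  simp [q]

end Pool.Agent.Lib.MP_fcdc87_an
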